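import Pool.Agent.Zk18.Rr15
import Pool.Agent.W256.Curve6
import Pool.Agent.Zk18.Dg5
import Pool.Agent.Zk18.Th.Pr
import Pool.Agent.Results.MP_60829e_nt.FinitelyManyQuadraticPlanes
import Pool.Agent.Zk85.Th18.QUAD

/-!
# Two algebraically dependent linear forms in logarithms: polynomials in one number, or in one of
# finitely many spaces

Let `λ_1, ..., λ_n` be logarithms of algebraic numbers, and let `V` be the space of the linear forms
`b_0 + b_1 λ_1 + ... + b_n λ_n` with algebraic coefficients. Let `u, v ∈ V` be algebraically dependent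
over the algebraic numbers. (If the logarithms are algebraically independent, then `1, u, v` are
linearly dependent.) We prove, without any hypothesis and for relations of any degree, that

* `u` and `v` lie in one of finitely many subspaces `W` of `V` which contain `1` and in which any two
  elements are algebraically dependent, or
* `u = f(t)` and `v = g(t)` with polynomials `f`, `g` with algebraic coefficients and a number `t`, and
  moreover `1, u, v` are linearly dependent, or `u`, `v` lie in one of finitely many subspaces `T` of `V`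
  in which any two elements are algebraically dependent, or the polynomials can be chosen such that
  `3 ≤ max (deg f, deg g) ≤ n - 3`.

In particular, if `n ≤ 5` then any two algebraically dependent linear forms `u`, `v` lie in one of
finitely many spaces of transcendence degree one, or `1, u, v` are linearly dependent.

The number of the subspaces `W` for all relations of degree at most `D` together is at most
`(4 D + 2) ^ (2 (n + 1) + (D + 1) ^ 2)`, independently of the logarithms; they satisfy
`dim W ^ m ≤ D (m + 1)` for all `m` (that is, a basis of `W` is the generic point of a curve of degree at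
most `D`), and

`⌊(dim W) ^ 2 / 4⌋ ≤ D`.

So all relations of degree at most `D`, except those on curves with a polynomial parametrisation, come
from finitely many curves of degree at most `D` by linear projections. In particular, if `D ≤ 3` then
`W` is the plane `⟨1, u, v⟩`: up to substitutions `(u, v) ↦ (a u + b v + c, a' u + b' v + c')` there are
finitely many such relations.

The proof.

* The pairs on curves of degree at most `D` are parametrised by an algebraic set (the coefficients of
  `u`, `v`, `P`). Let `F` be the algebraic closure of the function field of a component, let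
  `y = (y_0, y_1)`, `y_i ∈ F ⊗ V`, be the generic pair, and let `M` be the algebraic closure of `F(y)` in
  the compositum of `F` and the field of the logarithms. A derivation `δ` of `F` extends to `M` such that
  `δ` vanishes on `V ∩ M` (`Rr11`).
* *Rationality* (`Rr1`-`Rr10`): `δ` maps the field `E = F(y)` to itself. Let `C` be the affine curve
  with generic point `y`. At a place of `M` over a point of `C` the derivation preserves the local ring
  of `C` (otherwise the reduction of the rescaled point `exp(s δ) y` is a polynomial curve on `C`), at the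
  places over the points of `C` at infinity `δ` does not increase the orders of the poles, because there
  some element of `V` which is killed by `δ` has a pole. The same is true for the difference `Δ` of `δ`
  and a conjugate of `δ` over `E`. Let `x` be a nonconstant function of minimal degree on `C`. If
  `E ≠ F(x)`, then a reduced basis of `E` over `F(x)` gives a differential form `z dx` which is regular
  everywhere, `z Δ x` has no poles and a zero, hence `Δ = 0`. If `E = F(x)`, then `C` has at least two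
  points at infinity, as it is not a polynomial curve, and `Δ x = c (x - ρ)` with a constant `c`, which is
  zero, because `δ x` has finitely many conjugates over `E`.
* The space of all elements of `F ⊗ V` which lie in `E`, are integral over the ring of `C` and have poles
  at most as the coordinates `y_i` is therefore stable under `δ`, thus it is of the form `F ⊗ W` (`Rr13`).
  The powers `W ^ m` have dimension at most `D (m + 1)`; on the other hand
  `dim W ^ (m + 1) ≥ dim W ^ m + ⌊(dim W) ^ 2 / 4⌋` by the linear subgroup theorem of Waldschmidt and Roy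
  (`Pool.Agent.W256.pow_growth` of the starting files).
* The number of the components is estimated by a theorem of Bezout type (`Cmp`).
* The degrees of the (minimal) relations between two elements of `V` are bounded, because `dim V ^ s` is
  at most a constant times `s ^ r`, `r` the transcendence degree of `V` (`Dg1`, `Dg2`).
* A pair on a curve with a polynomial parametrisation over `ℂ` is a value of a parametrisation over the
  algebraic numbers (`Dg3`-`Dg5`).
* The polynomial pairs (`Th`): if the family of the pairs is not stable, there is a polynomial curve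
  through the generic pair over `F`, and the reductions of the rescaled derivatives `δ ^ j y_i`, one for
  each exponent `j > 0` of the curve and both for the smallest one, together with `1, y_0, y_1` are linearly
  independent: so the curve has at most `n - 3` exponents. This is true for the special pairs as well
  (reduction modulo a place), and by the theorem of Lüroth such a curve is `(f(ℓ), g(ℓ))` and
  `f(ℓ)` has at least `deg f` exponents (modules LUR of helper80, TERMS of helper50, LOWK of helper99, GLI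
  of helper27, LIN, QUAD of helper85).
* Parametrisations of degree two are conics: `FinitelyManyQuadraticPlanes` of the starting files.
-/

set_option autoImplicit false

namespace Pool.Agent.Results.MP_60829e_nt.FinitelyManyPlanes

/-- The linear combinations of `1` and the `l i` with algebraic coefficients. -/
noncomputable def Forms {n : ℕ} (l : Fin n → ℂ) : Submodule (algebraicClosure ℚ ℂ) ℂ :=
  Submodule.span (algebraicClosure ℚ ℂ) ({1} ∪ Set.range l)

/-- `P(u, v) = 0` for some nonzero polynomial `P` of total degree at most `D` with algebraic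
coefficients. -/
def RelationOfDegree (D : ℕ) (u v : ℂ) : Prop :=
  ∃ P : MvPolynomial (Fin 2) (algebraicClosure ℚ ℂ), P ≠ 0 ∧ P.totalDegree ≤ D ∧
    MvPolynomial.aeval ![u, v] P = 0

/-- `u = f(t)` and `v = g(t)` for two polynomials `f`, `g` with algebraic coefficients and a complex
number `t`. -/
def PolynomialPair (u v : ℂ) : Prop :=
  ∃ (f g : Polynomial (algebraicClosure ℚ ℂ)) (t : ℂ),
    u = Polynomial.aeval t f ∧ v = Polynomial.aeval t g

/-- `u = f(t)` and `v = g(t)` for two polynomials `f`, `g` with algebraic coefficients such that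
`a ≤ max (deg f, deg g) ≤ b`, and a complex number `t`. -/
def PolynomialPairOfDegree (a b : ℕ) (u v : ℂ) : Prop :=
  ∃ (f g : Polynomial (algebraicClosure ℚ ℂ)) (t : ℂ),
    a ≤ max f.natDegree g.natDegree ∧ max f.natDegree g.natDegree ≤ b ∧
    u = Polynomial.aeval t f ∧ v = Polynomial.aeval t g

/-- (auxiliary) The curve `P = 0` contains no nonconstant polynomial curve `t ↦ c(t)` with
`c(0) = y`. -/
def NoCurveThrough (P : MvPolynomial (Fin 2) (algebraicClosure ℚ ℂ)) (y : Fin 2 → ℂ) : Prop :=
  ∀ c : Fin 2 → Polynomial ℂ, (∀ i, (c i).coeff 0 = y i) → MvPolynomial.aeval c P = 0 →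
    ∀ i, c i = Polynomial.C (y i)

/-- (auxiliary) One of the numbers `u`, `v` is transcendental, and `(u, v)` lies on a curve `P = 0` of
degree at most `D`, defined over the algebraic numbers, which contains no nonconstant polynomial
curve through `(u, v)`. -/
def Related (D : ℕ) (u v : ℂ) : Prop :=
  (Transcendental ℚ u ∨ Transcendental ℚ v) ∧
    ∃ P : MvPolynomial (Fin 2) (algebraicClosure ℚ ℂ), P ≠ 0 ∧ P.totalDegree ≤ D ∧
      MvPolynomial.aeval ![u, v] P = 0 ∧ NoCurveThrough P ![u, v]

/-- related numbers are linearly independent -/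
theorem linInd {D : ℕ} {u v : ℂ} (h : Related D u v) :
    LinearIndependent (algebraicClosure ℚ ℂ) ![1, u, v] := by
  classical
  have hQ : Algebra.IsAlgebraic ℚ (algebraicClosure ℚ ℂ) := algebraicClosure.isAlgebraic ℚ ℂ
  obtain ⟨htr, P, hP, -, hPy, hNC⟩ := h
  by_contra hdep
  rw [Fintype.not_linearIndependent_iff] at hdep
  obtain ⟨g, hg, i₀, hi₀⟩ := hdep
  rw [Fin.sum_univ_three] at hg
  simp only [Matrix.cons_val_zero, Matrix.cons_val_one, Matrix.cons_val_two, Matrix.head_cons,
    Matrix.tail_cons, Algebra.smul_def, mul_one] at hg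
  set A := algebraMap (algebraicClosure ℚ ℂ) ℂ with hA
  have hg' : A (g 0) + A (g 1) * u + A (g 2) * v = 0 := hg
  have hne : g 1 ≠ 0 ∨ g 2 ≠ 0 := by
    by_contra hno
    push Not at hno
    rw [hno.1, hno.2, map_zero, zero_mul, zero_mul, add_zero, add_zero, map_eq_zero] at hg'
    fin_cases i₀
    · exact hi₀ hg'
    · exact hi₀ hno.1
    · exact hi₀ hno.2
  -- a parametrisation of the line
  obtain ⟨x₀, y₀, s, hu, hv⟩ : ∃ (x₀ y₀ : algebraicClosure ℚ ℂ) (s : ℂ),
      u = A x₀ + A (g 2) * s ∧ v = A y₀ - A (g 1) * s := by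
    by_cases h2 : g 2 = 0
    · have h1 : g 1 ≠ 0 := hne.resolve_right (fun h => h h2)
      have h1' : A (g 1) ≠ 0 := by rw [ne_eq, map_eq_zero]; exact h1
      refine ⟨-(g 0) / g 1, 0, -v / A (g 1), ?_, ?_⟩
      · rw [h2, map_zero, zero_mul, add_zero] at hg' ⊢
        rw [map_div₀, map_neg, eq_div_iff h1']
        linear_combination hg'
      · rw [map_zero]
        field_simp
        ring
    · have h2' : A (g 2) ≠ 0 := by rw [ne_eq, map_eq_zero]; exact h2
      refine ⟨0, -(g 0) / g 2, u / A (g 2), ?_, ?_⟩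
      · rw [map_zero]
        field_simp
        ring
      · rw [map_div₀, map_neg]
        field_simp
        linear_combination hg'
  have hs : Transcendental (algebraicClosure ℚ ℂ) s := by
    intro hs
    have hau : IsAlgebraic (algebraicClosure ℚ ℂ) u := by
      rw [hu]
      exact (isAlgebraic_algebraMap _).add ((isAlgebraic_algebraMap _).mul hs)
    have hav : IsAlgebraic (algebraicClosure ℚ ℂ) v := by
      rw [hv]
      exact (isAlgebraic_algebraMap _).sub ((isAlgebraic_algebraMap _).mul hs)
    rcases htr with htr | htr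
    · exact htr (hau.restrictScalars ℚ)
    · exact htr (hav.restrictScalars ℚ)
  let q : Fin 2 → Polynomial (algebraicClosure ℚ ℂ) :=
    ![Polynomial.C x₀ + Polynomial.C (g 2) * Polynomial.X,
      Polynomial.C y₀ - Polynomial.C (g 1) * Polynomial.X]
  have hq : (fun i => Polynomial.aeval s (q i)) = ![u, v] := by
    funext i
    fin_cases i
    · simp only [q, Fin.zero_eta, Matrix.cons_val_zero, map_add, map_mul, Polynomial.aeval_C,
        Polynomial.aeval_X]
      exact hu.symm
    · simp only [q, Fin.mk_one, Matrix.cons_val_one, Matrix.head_cons, map_sub, map_mul,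
        Polynomial.aeval_C, Polynomial.aeval_X, Matrix.cons_val_fin_one]
      exact hv.symm
  have hzero : MvPolynomial.aeval q P = 0 := by
    apply (transcendental_iff.mp hs)
    have h1 := MvPolynomial.comp_aeval_apply (f := q)
      (φ := (Polynomial.aeval s : Polynomial (algebraicClosure ℚ ℂ) →ₐ[_] ℂ)) P
    rw [h1]
    rw [← hPy]
    congr 1
    congr 1
  let c : Fin 2 → Polynomial ℂ := fun i =>
    ((q i).map A).comp (Polynomial.C s + Polynomial.X)
  have hc0 : ∀ i, (c i).coeff 0 = (![u, v] : Fin 2 → ℂ) i := by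
    intro i
    rw [Polynomial.coeff_zero_eq_eval_zero, Polynomial.eval_comp, Polynomial.eval_add,
      Polynomial.eval_C, Polynomial.eval_X, add_zero, Polynomial.eval_map_algebraMap]
    exact congrFun hq i
  have hcP : MvPolynomial.aeval c P = 0 := by
    have h2 := congrArg (Polynomial.compRingHom (Polynomial.C s + Polynomial.X))
      (congrArg (Polynomial.mapRingHom A) hzero)
    rw [map_zero, map_zero, MvPolynomial.aeval_def, MvPolynomial.eval₂_comp_left,
      MvPolynomial.eval₂_comp_left] at h2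
    rw [MvPolynomial.aeval_def, ← h2]
    congr 1
    ext a
    simp [Polynomial.algebraMap_apply, hA]
  have h1 := hNC c hc0 hcP
  rcases hne with hne | hne
  · have h2 := congrArg (fun p : Polynomial ℂ => p.coeff 1) (h1 1)
    simp only [c, q, Matrix.cons_val_one, Matrix.cons_val_fin_one, Polynomial.map_sub,
      Polynomial.map_mul, Polynomial.map_C, Polynomial.map_X, Polynomial.sub_comp,
      Polynomial.mul_comp, Polynomial.C_comp, Polynomial.X_comp, Polynomial.coeff_sub,
      Polynomial.coeff_C_mul, Polynomial.coeff_add, Polynomial.coeff_C, Polynomial.coeff_X] at h2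
    norm_num at h2
    exact hne h2
  · have h2 := congrArg (fun p : Polynomial ℂ => p.coeff 1) (h1 0)
    simp only [c, q, Matrix.cons_val_zero, Polynomial.map_add,
      Polynomial.map_mul, Polynomial.map_C, Polynomial.map_X, Polynomial.add_comp,
      Polynomial.mul_comp, Polynomial.C_comp, Polynomial.X_comp,
      Polynomial.coeff_C_mul, Polynomial.coeff_add, Polynomial.coeff_C, Polynomial.coeff_X] at h2
    norm_num at h2
    exact hne h2

/-- the spaces for one degree -/
theorem level (n : ℕ) (l : Fin n → ℂ) (hl : ∀ i, IsAlgebraic ℚ (Complex.exp (l i))) (D : ℕ) :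
    ∃ 𝒲 : Set (Submodule (algebraicClosure ℚ ℂ) ℂ),
      𝒲.encard ≤ ((4 * D + 2) ^ (2 * (n + 1) + (D + 1) ^ 2) : ℕ) ∧
      (∀ W ∈ 𝒲, W ≤ Forms l ∧ 1 ∈ W ∧
        (Module.finrank (algebraicClosure ℚ ℂ) W) ^ 2 / 4 ≤ D ∧
        (∀ m : ℕ, Module.finrank (algebraicClosure ℚ ℂ)
          (W ^ m : Submodule (algebraicClosure ℚ ℂ) ℂ) ≤ D * (m + 1)) ∧
        ∀ x ∈ W, ∀ y ∈ W, ¬ AlgebraicIndependent (algebraicClosure ℚ ℂ) ![x, y]) ∧
      ∀ u ∈ Forms l, ∀ v ∈ Forms l, Related D u v →
        ∃ W ∈ 𝒲, u ∈ W ∧ v ∈ W ∧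
          (D ≤ 3 → W = Submodule.span (algebraicClosure ℚ ℂ) {1, u, v}) := by
  classical
  have hfd : FiniteDimensional (algebraicClosure ℚ ℂ) (Forms l) :=
    FiniteDimensional.span_of_finite _ ((Set.finite_singleton _).union (Set.finite_range l))
  have h1 : (1 : ℂ) ∈ Forms l := Submodule.subset_span (Or.inl rfl)
  have hle : Forms l ≤ Pool.Agent.H301R2.SSE.Lt := by
    rw [Forms, Submodule.span_le]
    rintro x (hx | ⟨i, rfl⟩)
    · rw [Set.mem_singleton_iff] at hx
      rw [hx]
      exact Pool.Agent.H301R2.SSE.Lt_one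
    · exact Pool.Agent.H301R2.SSE.Lt_log (hl i)
  have hrank : Module.finrank (algebraicClosure ℚ ℂ) (Forms l) ≤ n + 1 := by
    have h2 : ({1} ∪ Set.range l : Set ℂ) = Set.range (Fin.cons 1 l : Fin (n + 1) → ℂ) := by
      rw [Fin.range_cons, Set.singleton_union]
    rw [Forms, h2]
    refine (finrank_range_le_card (R := algebraicClosure ℚ ℂ) _).trans ?_
    rw [Fintype.card_fin]
  have hQ : Algebra.IsAlgebraic ℚ (algebraicClosure ℚ ℂ) := algebraicClosure.isAlgebraic ℚ ℂ
  obtain ⟨𝒲, hcard, hW, hpt⟩ := Pool.Agent.Zk18.Rr.planes (Forms l) hfd (n + 1) hrank D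
  have hdim : ∀ W ∈ 𝒲, (Module.finrank (algebraicClosure ℚ ℂ) W) ^ 2 / 4 ≤ D := by
    intro W hWW
    obtain ⟨hWV, hW1, hWm, -⟩ := hW W hWW
    have hWfd : FiniteDimensional (algebraicClosure ℚ ℂ) W := Submodule.finiteDimensional_of_le hWV
    have hgr := Pool.Agent.W256.pow_growth W (hWV.trans hle) (hW1 h1)
    have hind : ∀ m : ℕ, m * ((Module.finrank (algebraicClosure ℚ ℂ) W) ^ 2 / 4) ≤
        Module.finrank (algebraicClosure ℚ ℂ) (W ^ (m + 1) : Submodule _ ℂ) := by
      intro m
      induction m with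
      | zero => rw [zero_mul]; exact Nat.zero_le _
      | succ m ih =>
        have h3 := hgr (m + 1) (by omega)
        have h4 : (m + 1) * ((Module.finrank (algebraicClosure ℚ ℂ) W) ^ 2 / 4) =
            m * ((Module.finrank (algebraicClosure ℚ ℂ) W) ^ 2 / 4) +
              (Module.finrank (algebraicClosure ℚ ℂ) W) ^ 2 / 4 := Nat.succ_mul _ _
        rw [h4]
        exact (Nat.add_le_add_right ih _).trans h3
    have h3 := (hind (2 * D + 1)).trans (hWm (2 * D + 1 + 1))
    by_contra hno
    rw [not_le] at hno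
    have h4 : (2 * D + 1) * (D + 1) ≤
        (2 * D + 1) * ((Module.finrank (algebraicClosure ℚ ℂ) W) ^ 2 / 4) :=
      Nat.mul_le_mul_left _ hno
    nlinarith
  refine ⟨𝒲, ?_, fun W hWW => ⟨(hW W hWW).1, (hW W hWW).2.1 h1, hdim W hWW,
    (hW W hWW).2.2.1, (hW W hWW).2.2.2⟩, ?_⟩
  · have h2 : 2 * (2 * D + 1) = 4 * D + 2 := by ring
    rw [h2] at hcard
    exact hcard
  · intro u hu v hv hrel
    have hli := linInd hrel
    obtain ⟨htr, P, hP, hPD, hPy, hNC⟩ := hrel
    obtain ⟨W, hWW, hyW⟩ := hpt ![u, v] (by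
      intro i
      fin_cases i
      · exact hu
      · exact hv) (by
      have h2 : ∀ w : ℂ, Transcendental ℚ w →
          w ∉ Set.range (algebraMap (algebraicClosure ℚ ℂ) ℂ) := by
        rintro w hw ⟨a, rfl⟩
        exact hw ((isAlgebraic_algebraMap a).restrictScalars ℚ)
      rcases htr with htr | htr
      · exact ⟨0, h2 u htr⟩
      · exact ⟨1, h2 v htr⟩) P hP hPD hPy hNC
    have huW : u ∈ W := hyW 0
    have hvW : v ∈ W := hyW 1
    refine ⟨W, hWW, huW, hvW, fun hD => ?_⟩
    have h1W := (hW W hWW).2.1 h1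
    have hWfd : FiniteDimensional (algebraicClosure ℚ ℂ) W :=
      Submodule.finiteDimensional_of_le (hW W hWW).1
    have hsub : Submodule.span (algebraicClosure ℚ ℂ) {1, u, v} ≤ W := by
      rw [Submodule.span_le]
      rintro x (rfl | rfl | hx)
      · exact h1W
      · exact huW
      · rw [Set.mem_singleton_iff] at hx
        rw [hx]
        exact hvW
    have h3 : Module.finrank (algebraicClosure ℚ ℂ)
        (Submodule.span (algebraicClosure ℚ ℂ) ({1, u, v} : Set ℂ)) = 3 := by
      have h4 : ({1, u, v} : Set ℂ) = Set.range ![1, u, v] := by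
        ext x
        simp only [Set.mem_insert_iff, Set.mem_singleton_iff, Set.mem_range, Fin.exists_fin_succ,
          Matrix.cons_val_zero, Matrix.cons_val_succ, Fin.succ_zero_eq_one]
        simp [eq_comm]
      rw [h4, finrank_span_eq_card hli, Fintype.card_fin]
    symm
    apply Submodule.eq_of_le_of_finrank_le hsub
    rw [h3]
    have h5 := hdim W hWW
    by_contra hno
    rw [not_le] at hno
    have h6 : 4 ^ 2 / 4 ≤ (Module.finrank (algebraicClosure ℚ ℂ) W) ^ 2 / 4 :=
      Nat.div_le_div_right (Nat.pow_le_pow_left hno 2)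
    have h7 : 4 ^ 2 / 4 = 4 := by norm_num
    omega

/-- the spaces contain the number one and have finite dimension -/
theorem Forms_finite {n : ℕ} (l : Fin n → ℂ) :
    FiniteDimensional (algebraicClosure ℚ ℂ) (Forms l) ∧ (1 : ℂ) ∈ Forms l :=
  ⟨FiniteDimensional.span_of_finite _ ((Set.finite_singleton _).union (Set.finite_range l)),
    Submodule.subset_span (Or.inl rfl)⟩

/-- the degrees of the relations are bounded -/
theorem bounded {n : ℕ} (l : Fin n → ℂ) : ∃ D₀ : ℕ, ∀ u ∈ Forms l, ∀ v ∈ Forms l, ∀ D,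
    Related D u v → Related D₀ u v := by
  classical
  obtain ⟨hfd, h1⟩ := Forms_finite l
  have hQ : Algebra.IsAlgebraic ℚ (algebraicClosure ℚ ℂ) := algebraicClosure.isAlgebraic ℚ ℂ
  obtain ⟨s, hs⟩ := Pool.Agent.Zk18.Dg.degree_bound (Forms l) hfd h1 1
  refine ⟨2 * s, fun u hu v hv D hrel => ?_⟩
  obtain ⟨htr, P, hP, -, hPy, hNC⟩ := hrel
  have htr' : ∀ w : ℂ, Transcendental ℚ w → Transcendental (algebraicClosure ℚ ℂ) w := by
    intro w hw hw'
    exact hw (hw'.restrictScalars ℚ)
  have hind : ∃ i : Fin 2, AlgebraicIndependent (algebraicClosure ℚ ℂ)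
      fun j : Fin 1 => (![u, v] : Fin 2 → ℂ) (i.succAbove j) := by
    rcases htr with htr | htr
    · refine ⟨1, ?_⟩
      rw [algebraicIndependent_unique_type_iff]
      exact htr' u htr
    · refine ⟨0, ?_⟩
      rw [algebraicIndependent_unique_type_iff]
      exact htr' v htr
  obtain ⟨Q, hQ0, hQs, hQy⟩ := hs ![u, v] (by
    intro i
    fin_cases i
    · exact hu
    · exact hv) hind ⟨P, hP, hPy⟩
  obtain ⟨i, hi⟩ := hind
  refine ⟨htr, Q, hQ0, ?_, hQy, ?_⟩
  · refine Finset.sup_le fun d hd => ?_
    rw [Finsupp.sum_fintype _ _ (fun _ => rfl), Fin.sum_univ_two]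
    have h2 := MvPolynomial.degreeOf_le_iff.mp (hQs 0) d hd
    have h3 := MvPolynomial.degreeOf_le_iff.mp (hQs 1) d hd
    omega
  · intro c hc hcQ
    exact hNC c hc (Pool.Agent.Zk18.Dg.curve_transfer ![u, v] i hi P Q hQ0 hPy c hc hcQ)

/-- the spaces, all degrees at once -/
theorem spaces (n : ℕ) (l : Fin n → ℂ) (hl : ∀ i, IsAlgebraic ℚ (Complex.exp (l i))) :
    ∃ 𝒲 : ℕ → Set (Submodule (algebraicClosure ℚ ℂ) ℂ), (⋃ D, 𝒲 D).Finite ∧
      ∀ D, (𝒲 D).encard ≤ ((4 * D + 2) ^ (2 * (n + 1) + (D + 1) ^ 2) : ℕ) ∧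
        (∀ W ∈ 𝒲 D, W ≤ Forms l ∧ 1 ∈ W ∧
          (Module.finrank (algebraicClosure ℚ ℂ) W) ^ 2 / 4 ≤ D ∧
          (∀ m : ℕ, Module.finrank (algebraicClosure ℚ ℂ)
            (W ^ m : Submodule (algebraicClosure ℚ ℂ) ℂ) ≤ D * (m + 1)) ∧
          ∀ x ∈ W, ∀ y ∈ W, ¬ AlgebraicIndependent (algebraicClosure ℚ ℂ) ![x, y]) ∧
        ∀ u ∈ Forms l, ∀ v ∈ Forms l, Related D u v →
          ∃ W ∈ 𝒲 D, u ∈ W ∧ v ∈ W ∧
            (D ≤ 3 → W = Submodule.span (algebraicClosure ℚ ℂ) {1, u, v}) := by
  classical
  choose 𝒲₀ hcard hW hpt using level n l hl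
  obtain ⟨D₀, hD₀⟩ := bounded l
  refine ⟨fun D => 𝒲₀ (min D D₀), ?_, fun D => ⟨?_, ?_, ?_⟩⟩
  · refine Set.Finite.subset (s := ⋃ D ∈ Finset.range (D₀ + 1), 𝒲₀ D) ?_ ?_
    · refine Set.Finite.biUnion (Finset.finite_toSet _) fun D _ => ?_
      exact Set.finite_of_encard_le_coe (hcard D)
    · intro W hWW
      rw [Set.mem_iUnion] at hWW
      obtain ⟨D, hWD⟩ := hWW
      rw [Set.mem_iUnion₂]
      exact ⟨min D D₀, Finset.mem_range.mpr (Nat.lt_succ_of_le (min_le_right _ _)), hWD⟩
  · refine (hcard _).trans ?_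
    have h2 : (4 * min D D₀ + 2) ^ (2 * (n + 1) + (min D D₀ + 1) ^ 2) ≤
        (4 * D + 2) ^ (2 * (n + 1) + (D + 1) ^ 2) := by
      have h3 : min D D₀ ≤ D := min_le_left _ _
      refine (Nat.pow_le_pow_left (by omega) _).trans (Nat.pow_le_pow_right (by omega) ?_)
      have h4 : (min D D₀ + 1) ^ 2 ≤ (D + 1) ^ 2 := Nat.pow_le_pow_left (by omega) 2
      omega
    exact_mod_cast h2
  · intro W hWW
    obtain ⟨h2, h3, h4, h5, h6⟩ := hW _ W hWW
    exact ⟨h2, h3, h4.trans (min_le_left _ _),
      fun m => (h5 m).trans (Nat.mul_le_mul_right _ (min_le_left _ _)), h6⟩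
  · intro u hu v hv hrel
    have hrel' : Related (min D D₀) u v := by
      rcases le_total D D₀ with h | h
      · rw [min_eq_left h]; exact hrel
      · rw [min_eq_right h]; exact hD₀ u hu v hv D hrel
    obtain ⟨W, hWW, huW, hvW, hW3⟩ := hpt _ u hu v hv hrel'
    exact ⟨W, hWW, huW, hvW, fun hD => hW3 ((min_le_left _ _).trans hD)⟩

/-- a relation is polynomial, or the point lies on no polynomial curve -/
theorem related_of_not {D : ℕ} {u v : ℂ} (h : RelationOfDegree D u v)
    (hno : ¬ PolynomialPair u v) : Related D u v := by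
  classical
  have hQ : Algebra.IsAlgebraic ℚ (algebraicClosure ℚ ℂ) := algebraicClosure.isAlgebraic ℚ ℂ
  have hKa : IsAlgClosed (algebraicClosure ℚ ℂ) := (algebraicClosure.isAlgClosure ℚ ℂ).isAlgClosed
  obtain ⟨P, hP, hPD, hPy⟩ := h
  have hmem : ∀ w : ℂ, ¬ Transcendental ℚ w → ∃ a : algebraicClosure ℚ ℂ, (a : ℂ) = w := by
    intro w hw
    rw [Transcendental, not_not] at hw
    exact ⟨⟨w, (mem_algebraicClosure_iff).mpr hw⟩, rfl⟩
  have htr : Transcendental ℚ u ∨ Transcendental ℚ v := by
    by_contra hno2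
    push Not at hno2
    obtain ⟨a, ha⟩ := hmem u hno2.1
    obtain ⟨b, hb⟩ := hmem v hno2.2
    apply hno
    refine ⟨Polynomial.C a, Polynomial.C b, 0, ?_, ?_⟩
    · rw [Polynomial.aeval_C]; exact ha.symm
    · rw [Polynomial.aeval_C]; exact hb.symm
  refine ⟨htr, P, hP, hPD, hPy, ?_⟩
  have htr' : ∀ w : ℂ, Transcendental ℚ w → Transcendental (algebraicClosure ℚ ℂ) w := by
    intro w hw hw'
    exact hw (hw'.restrictScalars ℚ)
  obtain ⟨i, hi⟩ : ∃ i : Fin 2, AlgebraicIndependent (algebraicClosure ℚ ℂ)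
      fun j : Fin 1 => (![u, v] : Fin 2 → ℂ) (i.succAbove j) := by
    rcases htr with htr | htr
    · refine ⟨1, ?_⟩
      rw [algebraicIndependent_unique_type_iff]
      exact htr' u htr
    · refine ⟨0, ?_⟩
      rw [algebraicIndependent_unique_type_iff]
      exact htr' v htr
  intro c hc hcP
  by_contra hne
  push Not at hne
  obtain ⟨f, t, hf⟩ := Pool.Agent.Zk18.Dg.polynomial_pair ![u, v] i hi P hP hPy c hc hcP hne
  exact hno ⟨f 0, f 1, t, hf 0, hf 1⟩

theorem Forms_rank {n : ℕ} (l : Fin n → ℂ) :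
    Module.finrank (algebraicClosure ℚ ℂ) (Forms l) ≤ n + 1 := by
  have h2 : ({1} ∪ Set.range l : Set ℂ) = Set.range (Fin.cons 1 l : Fin (n + 1) → ℂ) := by
    rw [Fin.range_cons, Set.singleton_union]
  rw [Forms, h2]
  refine (finrank_range_le_card (R := algebraicClosure ℚ ℂ) _).trans ?_
  rw [Fintype.card_fin]

/-- the polynomial pairs -/
theorem polynomial_pairs (n : ℕ) (l : Fin n → ℂ) (hl : ∀ i, IsAlgebraic ℚ (Complex.exp (l i))) :
    ∃ 𝒯 : Set (Submodule (algebraicClosure ℚ ℂ) ℂ), 𝒯.Finite ∧
      (∀ T ∈ 𝒯, T ≤ Forms l ∧ ∀ x ∈ T, ∀ y ∈ T,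
        ¬ AlgebraicIndependent (algebraicClosure ℚ ℂ) ![x, y]) ∧
      ∀ u ∈ Forms l, ∀ v ∈ Forms l, ∀ D, RelationOfDegree D u v →
        ¬ LinearIndependent (algebraicClosure ℚ ℂ) ![1, u, v] ∨ (∃ T ∈ 𝒯, u ∈ T ∧ v ∈ T) ∨
          PolynomialPairOfDegree 3 (n - 3) u v := by
  classical
  have h1F : (1 : ℂ) ∈ Forms l := Submodule.subset_span (Or.inl rfl)
  obtain ⟨𝒯₀, hfin, hdep, hpairs⟩ := Pool.Agent.Zk18.Th.pairs (Forms l) (Forms_finite l).1 h1F
  refine ⟨𝒯₀ ∪ {T | ∃ u ∈ Forms l, ∃ v ∈ Forms l,
      LinearIndependent (algebraicClosure ℚ ℂ) ![1, u, v] ∧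
      Pool.Agent.Results.MP_60829e_nt.FinitelyManyQuadraticPlanes.QuadraticRelation u v ∧
        T = Submodule.span (algebraicClosure ℚ ℂ) {1, u, v}},
    hfin.union (Pool.Agent.Results.MP_60829e_nt.FinitelyManyQuadraticPlanes.result n l hl), ?_, ?_⟩
  · rintro T (hT | ⟨u, hu, v, hv, hli, ⟨c, hc, hrel⟩, rfl⟩)
    · exact hdep T hT
    · have hsub : ∀ (S : Submodule (algebraicClosure ℚ ℂ) ℂ), (1 : ℂ) ∈ S → u ∈ S → v ∈ S →
          Submodule.span (algebraicClosure ℚ ℂ) {1, u, v} ≤ S := by
        intro S h1 h2 h3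
        rw [Submodule.span_le]
        rintro x (rfl | rfl | hx)
        · exact h1
        · exact h2
        · rw [Set.mem_singleton_iff] at hx
          rw [hx]
          exact h3
      refine ⟨hsub _ h1F hu hv, ?_⟩
      let P : MvPolynomial (Fin (1 + 1)) (algebraicClosure ℚ ℂ) :=
        MvPolynomial.C (c 0) * MvPolynomial.X 0 ^ 2 +
        MvPolynomial.C (c 1) * (MvPolynomial.X 0 * MvPolynomial.X 1) +
        MvPolynomial.C (c 2) * MvPolynomial.X 1 ^ 2 + MvPolynomial.C (c 3) * MvPolynomial.X 0 +
        MvPolynomial.C (c 4) * MvPolynomial.X 1 + MvPolynomial.C (c 5)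
      have hP : P ≠ 0 := by
        intro h0
        apply hc
        have e0 : ∀ x y : algebraicClosure ℚ ℂ, c 0 * x ^ 2 + c 1 * (x * y) + c 2 * y ^ 2 +
            c 3 * x + c 4 * y + c 5 = 0 := by
          intro x y
          have h2 := congrArg (MvPolynomial.eval (![x, y] : Fin (1 + 1) → algebraicClosure ℚ ℂ)) h0
          simp only [P, map_add, map_mul, map_pow, MvPolynomial.eval_C, MvPolynomial.eval_X,
            map_zero] at h2
          exact h2
        have a0 := e0 0 0
        have a1 := e0 1 0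
        have a2 := e0 (-1) 0
        have a3 := e0 0 1
        have a4 := e0 0 (-1)
        have a5 := e0 1 1
        have h5 : c 5 = 0 := by linear_combination a0
        have h0' : c 0 = 0 := by linear_combination (1 / 2 : algebraicClosure ℚ ℂ) * a1 +
          (1 / 2 : algebraicClosure ℚ ℂ) * a2 - h5
        have h3 : c 3 = 0 := by linear_combination a1 - h0' - h5
        have h2 : c 2 = 0 := by linear_combination (1 / 2 : algebraicClosure ℚ ℂ) * a3 +
          (1 / 2 : algebraicClosure ℚ ℂ) * a4 - h5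
        have h4 : c 4 = 0 := by linear_combination a3 - h2 - h5
        have h1 : c 1 = 0 := by linear_combination a5 - h0' - h2 - h3 - h4 - h5
        funext i
        fin_cases i
        · exact h0'
        · exact h1
        · exact h2
        · exact h3
        · exact h4
        · exact h5
      have hPy : MvPolynomial.aeval (![u, v] : Fin (1 + 1) → ℂ) P = 0 := by
        simp only [P, map_add, map_mul, map_pow, MvPolynomial.aeval_C, MvPolynomial.aeval_X]
        exact hrel
      have hw : Submodule.span (algebraicClosure ℚ ℂ) {1, u, v} ≤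
          Pool.Agent.Zk18.Th.WV (Forms l) ![u, v] := by
        refine hsub _ ⟨h1F, ?_⟩ ⟨hu, ?_⟩ ⟨hv, ?_⟩
        · exact one_mem (Pool.Agent.Zk18.Md.KK (algebraicClosure ℚ ℂ) (Set.range ![u, v]))
        · exact Pool.Agent.Zk18.Fd.mem_KK_of_mem ⟨0, rfl⟩
        · exact Pool.Agent.Zk18.Fd.mem_KK_of_mem ⟨1, rfl⟩
      intro x hx y hy
      exact Pool.Agent.Zk18.Th.WV_dep (Forms l) ![u, v] P hP hPy x y (hw hx) (hw hy)
  · intro u hu v hv D hrel
    by_cases hli : LinearIndependent (algebraicClosure ℚ ℂ) ![1, u, v]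
    swap
    · exact Or.inl hli
    right
    obtain ⟨P, hP, -, hPy⟩ := hrel
    rcases hpairs u hu v hv ⟨P, hP, hPy⟩ with ⟨T, hT, huT, hvT⟩ | ⟨f, g, t, hf, hg, hfu, hgv⟩
    · exact Or.inl ⟨T, Or.inl hT, huT, hvT⟩
    · by_cases h3 : 3 ≤ max f.natDegree g.natDegree
      · right
        refine ⟨f, g, t, h3, ?_, hfu, hgv⟩
        have h4 := Forms_rank l
        have h5 : max f.natDegree g.natDegree ≤
            max 1 (Module.finrank (algebraicClosure ℚ ℂ) (Forms l) - 4) := max_le hf hg
        omega
      · left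
        have hf2 : f.natDegree ≤ 2 := by
          have := le_max_left f.natDegree g.natDegree
          omega
        have hg2 : g.natDegree ≤ 2 := by
          have := le_max_right f.natDegree g.natDegree
          omega
        have hli' := hli
        rw [hfu, hgv] at hli'
        obtain ⟨c, hc, hrel⟩ := Pool.Agent.Zk85.Th18.t_QUAD (algebraicClosure ℚ ℂ) ℂ t f g hf2 hg2 hli'
        rw [← hfu, ← hgv] at hrel
        exact ⟨_, Or.inr ⟨u, hu, v, hv, hli, ⟨c, hc, hrel⟩, rfl⟩,
          Submodule.subset_span (Or.inr (Or.inl rfl)),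
          Submodule.subset_span (Or.inr (Or.inr rfl))⟩

/-- **Main result.** -/
theorem result (n : ℕ) (l : Fin n → ℂ) (hl : ∀ i, IsAlgebraic ℚ (Complex.exp (l i))) :
    ∃ (𝒲 : ℕ → Set (Submodule (algebraicClosure ℚ ℂ) ℂ))
      (𝒯 : Set (Submodule (algebraicClosure ℚ ℂ) ℂ)), (⋃ D, 𝒲 D).Finite ∧ 𝒯.Finite ∧
      (∀ T ∈ 𝒯, T ≤ Forms l ∧ ∀ x ∈ T, ∀ y ∈ T,
        ¬ AlgebraicIndependent (algebraicClosure ℚ ℂ) ![x, y]) ∧
      ∀ D, (𝒲 D).encard ≤ ((4 * D + 2) ^ (2 * (n + 1) + (D + 1) ^ 2) : ℕ) ∧
        (∀ W ∈ 𝒲 D, W ≤ Forms l ∧ 1 ∈ W ∧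
          (Module.finrank (algebraicClosure ℚ ℂ) W) ^ 2 / 4 ≤ D ∧
          (∀ m : ℕ, Module.finrank (algebraicClosure ℚ ℂ)
            (W ^ m : Submodule (algebraicClosure ℚ ℂ) ℂ) ≤ D * (m + 1)) ∧
          ∀ x ∈ W, ∀ y ∈ W, ¬ AlgebraicIndependent (algebraicClosure ℚ ℂ) ![x, y]) ∧
        ∀ u ∈ Forms l, ∀ v ∈ Forms l, RelationOfDegree D u v →
          (∃ W ∈ 𝒲 D, u ∈ W ∧ v ∈ W ∧
            (D ≤ 3 → W = Submodule.span (algebraicClosure ℚ ℂ) {1, u, v})) ∨
          (PolynomialPair u v ∧
            (¬ LinearIndependent (algebraicClosure ℚ ℂ) ![1, u, v] ∨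
              (∃ T ∈ 𝒯, u ∈ T ∧ v ∈ T) ∨ PolynomialPairOfDegree 3 (n - 3) u v)) := by
  obtain ⟨𝒲, hfin, h𝒲⟩ := spaces n l hl
  obtain ⟨𝒯, hT1, hT2, hT3⟩ := polynomial_pairs n l hl
  refine ⟨𝒲, 𝒯, hfin, hT1, hT2, fun D => ⟨(h𝒲 D).1, (h𝒲 D).2.1, fun u hu v hv hrel => ?_⟩⟩
  by_cases hPP : PolynomialPair u v
  · exact Or.inr ⟨hPP, hT3 u hu v hv D hrel⟩
  · exact Or.inl ((h𝒲 D).2.2 u hu v hv (related_of_not hrel hPP))

end Pool.Agent.Results.MP_60829e_nt.FinitelyManyPlanes
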