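import Pool.Agent.Zk18.Fd10
import Pool.Agent.Zk18.Dg3
import Pool.Agent.Zk18.Th.Sd
import Pool.Agent.Zk18.Th.Sck
import Pool.Agent.Zk27.Th18.GLI
import Pool.Agent.Zk18.Th.Gai
import Pool.Agent.Zk99.Th18.LOWK
import Pool.Agent.Zk85.Th18.LIN

/-!
# Algebraic relations between polynomials in logarithms take place in finitely many spaces

Let `λ_1, ..., λ_n` be logarithms of algebraic numbers, and let `V` be the space of the values
`p(λ_1, ..., λ_n)` of the polynomials `p` of degree at most `d` with algebraic coefficients (for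
`d = 1` these are the linear forms `b_0 + b_1 λ_1 + ... + b_n λ_n`). We consider all points
`y = (y_0, ..., y_k)`, `y_i ∈ V`, of transcendence degree `k`: `k` of the coordinates are algebraically
independent, and the coordinates satisfy an algebraic relation. If the conjecture on the algebraic
independence of logarithms is true and `k ≥ 1`, then all algebraic relations of `y` are true along a
nonconstant polynomial curve through `y`: if `y_i = p_i(λ)` with algebraically independent
`λ_1, ..., λ_n`, this is the curve `t ↦ p(λ + t a)`. We prove, without any hypothesis, for relations of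
any degree and for all `k`, that

* `y_0, ..., y_k` lie in one of finitely many subspaces `W` of `V` of transcendence degree at most `k`
  (any `k + 1` elements of `W` are algebraically dependent), or
* all algebraic relations of `y` are true along a nonconstant polynomial curve through `y` with at most
  `max(1, M - k - 3)` exponents, `M = binom(n + d, d)` (`k ≥ 1`); if `k = 1` then, moreover,
  `y = (f(t), g(t))` with polynomials `f`, `g` over the algebraic numbers of degree at most
  `max(1, M - 4)`.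

In particular, for at most four logarithms and `d = 1`: if two linear forms `u`, `v` in the logarithms
are algebraically dependent, then `1, u, v` are linearly dependent over the algebraic numbers, or `u`
and `v` lie in one of finitely many spaces of transcendence degree one. (For general spaces `V ∋ 1` of
dimension `M` the bound `M - 4` is sharp: `1`, `s`, `t` and the monomials of degree `M - 4` in `s`, `t`.)

The number of the spaces, for all points of transcendence degree `k` which satisfy a relation of degree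
at most `D` in each variable, is at most `(2 (k + 1) D + 2) ^ ((k + 1) M + (D + 1) ^ (k + 1))`,
`M = binom(n + d, d)`, independently of the logarithms.

The proof. The points are parametrised by an algebraic set (the coefficients of the `y_i` and of the
polynomial `P` of degree at most `D` with `P(y) = 0`). Let `F` be the function field of a component, and
let `E` be an algebraically closed field which contains the product of `F` and of the field of the
logarithms.

* We may suppose `k ≥ 1` and that `1, y_0, ..., y_k` are linearly independent (otherwise the relations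
  are true along a line, module LIN of helper85).
* The generic point `y` over `F` of the family lies on a hypersurface which contains no polynomial
  curve through `y` with few exponents either: such a curve could be rescaled and reduced modulo a
  place of `E` over a special point of the family (`Fd7`, `Th/Sp`). The linear and algebraic
  independence at the special point implies the same at the generic point (`Th/Gai`, module GLI of
  helper27).
* Every derivation `δ` of `F` over `ℚ̄` maps the coordinates of `y` to numbers algebraic over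
  `F(y)`: otherwise there is a place of `E`, trivial on `M₀ = F(y)` (closed), at which `δ y` has a pole, and
  the reduction of the rescaled point `exp(s δ) y` is a polynomial curve through `y` (`Fd1`-`Fd4`). The
  reductions of the rescaled derivatives `δ ^ j y_i`, one for each exponent `j > 0` of the curve and two
  for the smallest one (these two exist unless there is a line through `y`, module LOWK of helper99,
  which generalises LOW of helper11), and `1, y_0, ..., y_k` come from linearly independent elements of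
  the space of dimension `M` (`Th/Pc`, `Th/Ck`, `Th/Stk`): so there are at most `M - k - 3` exponents.
* Hence the space of all linear combinations, over `F`, of the basis of `V` which are algebraic over
  `F(y)` is stable under the derivations, thus defined over `ℚ̄` (`Fd5`). So all special points of the
  family are algebraic over `F(y)`, and a comparison of the ranks shows that all of them generate the
  same algebraically closed field, whose intersection with `V` is `W` (`Fd6`, `Th/Sfk`).
* If `k = 1`, a curve with `m` exponents through a special point is a parametrisation `f(ℓ)`, `g(ℓ)` of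
  the plane curve (Lüroth), and `f(ℓ)` has at least `deg f` exponents (`Th/Sd`, modules LUR of helper80,
  TERMS of helper50).
* The number of the components is estimated by a theorem of Bezout type (`Bez`, `Cmp`, `Th/Sck`).
* For given `k` and given logarithms all points `y` satisfy a relation of bounded degree, because
  `dim V ^ s` is at most a constant times `s ^ r`, `r` the transcendence degree of `V` (`Dg1`, `Dg2`), and
  a polynomial curve through `y` on one hypersurface through `y` lies on all of them (`Dg3`).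
-/

set_option autoImplicit false

namespace Pool.Agent.Results.MP_60829e_nt.FinitelyManySpaces

/-- The values at `l` of the polynomials of total degree at most `d` with algebraic coefficients. -/
def Values {n : ℕ} (l : Fin n → ℂ) (d : ℕ) : Set ℂ :=
  {x | ∃ p : MvPolynomial (Fin n) (algebraicClosure ℚ ℂ), p.totalDegree ≤ d ∧
    MvPolynomial.aeval l p = x}

/-- `P(y) = 0` for some nonzero polynomial `P` of degree at most `D` in each variable with algebraic
coefficients. -/
def RelationOfDegree {m : ℕ} (D : ℕ) (y : Fin m → ℂ) : Prop :=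
  ∃ P : MvPolynomial (Fin m) (algebraicClosure ℚ ℂ),
    P ≠ 0 ∧ (∀ i, P.degreeOf i ≤ D) ∧ MvPolynomial.aeval y P = 0

/-- There is a nonconstant polynomial curve `t ↦ c(t)` with `c(0) = y` and with at most `e` exponents
(`t ^ r` has a nonzero coefficient in `c` for at most `e` numbers `r > 0`) on which all polynomial
relations with algebraic coefficients between the coordinates of `y` are true. -/
def OnPolynomialCurve {m : ℕ} (e : ℕ) (y : Fin m → ℂ) : Prop :=
  ∃ c : Fin m → Polynomial ℂ, (∀ i, (c i).coeff 0 = y i) ∧ (∃ i, c i ≠ Polynomial.C (y i)) ∧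
    {r : ℕ | r ≠ 0 ∧ ∃ i, (c i).coeff r ≠ 0}.encard ≤ e ∧
    ∀ Q : MvPolynomial (Fin m) (algebraicClosure ℚ ℂ), MvPolynomial.aeval y Q = 0 →
      MvPolynomial.aeval c Q = 0

/-- `y_i = f_i(t)` with polynomials `f_i` of degree at most `e` with algebraic coefficients and a
complex number `t`. -/
def PolynomialValues {m : ℕ} (e : ℕ) (y : Fin m → ℂ) : Prop :=
  ∃ (t : ℂ) (f : Fin m → Polynomial (algebraicClosure ℚ ℂ)),
    (∀ i, (f i).natDegree ≤ e) ∧ ∀ i, y i = Polynomial.aeval t (f i)

/-- (auxiliary) The hypersurface `P = 0` contains no nonconstant polynomial curve `t ↦ c(t)` with `c(0) = y`. -/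
def NoCurveThrough {m : ℕ} (P : MvPolynomial (Fin m) (algebraicClosure ℚ ℂ)) (y : Fin m → ℂ) :
    Prop :=
  ∀ c : Fin m → Polynomial ℂ, (∀ i, (c i).coeff 0 = y i) → MvPolynomial.aeval c P = 0 →
    ∀ i, c i = Polynomial.C (y i)

/-- (auxiliary) The points `y = (y_0, ..., y_k)` with coordinates in `Values l d` such that `k` of the coordinates
are algebraically independent over the algebraic numbers, and such that `P(y) = 0` for a nonzero
polynomial `P` of degree at most `D` in each variable such that the hypersurface `P = 0` contains no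
nonconstant polynomial curve through `y`. -/
def Points {n : ℕ} (l : Fin n → ℂ) (d k D : ℕ) : Set (Fin (k + 1) → ℂ) :=
  {y | (∀ i, y i ∈ Values l d) ∧
    (∃ i : Fin (k + 1), AlgebraicIndependent (algebraicClosure ℚ ℂ) fun j => y (i.succAbove j)) ∧
    ∃ P : MvPolynomial (Fin (k + 1)) (algebraicClosure ℚ ℂ),
      P ≠ 0 ∧ (∀ i, P.degreeOf i ≤ D) ∧ MvPolynomial.aeval y P = 0 ∧ NoCurveThrough P y}

/-- (auxiliary) The algebraic closure in `ℂ` of the field generated by the coordinates of `y` over the algebraic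
numbers. -/
def GeneratedField {m : ℕ} (y : Fin m → ℂ) : Set ℂ :=
  {x | IsAlgebraic (IntermediateField.adjoin (algebraicClosure ℚ ℂ) (Set.range y)) x}

/-- the space of the values -/
noncomputable def ValuesM {n : ℕ} (l : Fin n → ℂ) (d : ℕ) : Submodule (algebraicClosure ℚ ℂ) ℂ :=
  (MvPolynomial.restrictTotalDegree (Fin n) (algebraicClosure ℚ ℂ) d).map
    (MvPolynomial.aeval l : MvPolynomial (Fin n) (algebraicClosure ℚ ℂ) →ₐ[_] ℂ).toLinearMap

theorem mem_ValuesM {n : ℕ} (l : Fin n → ℂ) (d : ℕ) (x : ℂ) : x ∈ ValuesM l d ↔ x ∈ Values l d := by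
  rw [ValuesM, Submodule.mem_map]
  constructor
  · rintro ⟨p, hp, rfl⟩
    exact ⟨p, (MvPolynomial.mem_restrictTotalDegree _ _ _).mp hp, rfl⟩
  · rintro ⟨p, hp, rfl⟩
    exact ⟨p, (MvPolynomial.mem_restrictTotalDegree _ _ _).mpr hp, rfl⟩

/-- the products of `d` elements of `1, l_1, ..., l_n` -/
noncomputable def mon {n : ℕ} (l : Fin n → ℂ) (d : ℕ) (s : Sym (Option (Fin n)) d) : ℂ :=
  ((s : Multiset (Option (Fin n))).map (fun o => o.elim 1 l)).prod

theorem ValuesM_le {n : ℕ} (l : Fin n → ℂ) (d : ℕ) :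
    ValuesM l d ≤ Submodule.span (algebraicClosure ℚ ℂ) (Set.range (mon l d)) := by
  classical
  rintro _ ⟨p, hp, rfl⟩
  have hp' : p.totalDegree ≤ d := (MvPolynomial.mem_restrictTotalDegree _ _ _).mp hp
  change MvPolynomial.aeval l p ∈ _
  rw [MvPolynomial.aeval_def, MvPolynomial.eval₂_eq]
  refine Submodule.sum_mem _ fun m hm => ?_
  rw [← Algebra.smul_def]
  apply Submodule.smul_mem
  apply Submodule.subset_span
  have hdeg : Multiset.card (Finsupp.toMultiset m) ≤ d := by
    rw [Finsupp.card_toMultiset]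
    exact (MvPolynomial.le_totalDegree hm).trans hp'
  refine ⟨⟨(Finsupp.toMultiset m).map some +
    Multiset.replicate (d - Multiset.card (Finsupp.toMultiset m)) none, ?_⟩, ?_⟩
  · rw [Multiset.card_add, Multiset.card_map, Multiset.card_replicate]
    omega
  · have h1 : ((Finsupp.toMultiset m).map l).prod = ∏ i ∈ m.support, l i ^ m i := by
      rw [Finsupp.toMultiset_map, Finsupp.prod_toMultiset,
        Finsupp.prod_mapDomain_index (fun _ => pow_zero _) (fun _ _ _ => pow_add _ _ _)]
      rfl
    change (((Finsupp.toMultiset m).map some +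
      Multiset.replicate (d - Multiset.card (Finsupp.toMultiset m)) none).map
        (fun o : Option (Fin n) => o.elim 1 l)).prod = _
    rw [Multiset.map_add, Multiset.prod_add, Multiset.map_map, Multiset.map_replicate,
      Multiset.prod_replicate]
    have h2 : ((fun o : Option (Fin n) => o.elim 1 l) ∘ some) = l := rfl
    rw [h2, h1]
    simp

theorem finite_ValuesM {n : ℕ} (l : Fin n → ℂ) (d : ℕ) :
    FiniteDimensional (algebraicClosure ℚ ℂ) (ValuesM l d) ∧
      Module.finrank (algebraicClosure ℚ ℂ) (ValuesM l d) ≤ (n + d).choose d := by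
  classical
  have hfin : FiniteDimensional (algebraicClosure ℚ ℂ)
      (Submodule.span (algebraicClosure ℚ ℂ) (Set.range (mon l d))) :=
    FiniteDimensional.span_of_finite _ (Set.finite_range _)
  refine ⟨Submodule.finiteDimensional_of_le (ValuesM_le l d), ?_⟩
  refine (Submodule.finrank_mono (ValuesM_le l d)).trans ?_
  refine (finrank_range_le_card (R := algebraicClosure ℚ ℂ) (mon l d)).trans ?_
  rw [Sym.card_sym_eq_choose, Fintype.card_option, Fintype.card_fin]
  have h1 : n + 1 + d - 1 = n + d := by omega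
  rw [h1]

/-- the fields for one degree -/
theorem level {n : ℕ} (l : Fin n → ℂ) (d k D : ℕ) :
    {E : Set ℂ | ∃ y ∈ Points l d k D, E = GeneratedField y}.encard ≤
      ((2 * (k + 1) * D + 2) ^ ((k + 1) * (n + d).choose d + (D + 1) ^ (k + 1)) : ℕ) := by
  obtain ⟨hfin, hrank⟩ := finite_ValuesM l d
  have h1 := Pool.Agent.Zk18.Fd.encard_fields (ValuesM l d) hfin ((n + d).choose d) hrank k D
  have h2 : 2 * ((k + 1) * D + 1) = 2 * (k + 1) * D + 2 := by ring
  rw [h2] at h1
  refine le_trans (Set.encard_le_encard ?_) h1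
  rintro E ⟨y, ⟨hyV, hyI, P, hP, hPD, hPy, hNC⟩, rfl⟩
  exact ⟨y, P, fun i => (mem_ValuesM l d _).mpr (hyV i), hyI, hP, hPD, hPy, hNC, rfl⟩

/-- the degrees are bounded -/
theorem bounded {n : ℕ} (l : Fin n → ℂ) (d k : ℕ) :
    ∃ D₀ : ℕ, ∀ D, Points l d k D ⊆ Points l d k D₀ := by
  obtain ⟨hfin, -⟩ := finite_ValuesM l d
  have h1 : (1 : ℂ) ∈ ValuesM l d := by
    rw [mem_ValuesM]
    exact ⟨1, by rw [MvPolynomial.totalDegree_one]; exact Nat.zero_le _, map_one _⟩
  obtain ⟨s, hs⟩ := Pool.Agent.Zk18.Dg.degree_bound (ValuesM l d) hfin h1 k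
  refine ⟨s, ?_⟩
  rintro D y ⟨hyV, ⟨i, hi⟩, P, hP, -, hPy, hNC⟩
  obtain ⟨Q, hQ0, hQs, hQy⟩ := hs y (fun i => (mem_ValuesM l d _).mpr (hyV i)) ⟨i, hi⟩ ⟨P, hP, hPy⟩
  refine ⟨hyV, ⟨i, hi⟩, Q, hQ0, hQs, hQy, ?_⟩
  intro c hc hcQ
  exact hNC c hc (Pool.Agent.Zk18.Dg.curve_transfer y i hi P Q hQ0 hPy c hc hcQ)

/-- the number of algebraically independent coordinates is bounded -/
theorem bounded_length {n : ℕ} (l : Fin n → ℂ) (d k : ℕ) (y : Fin (k + 1) → ℂ)
    (hyV : ∀ i, y i ∈ Values l d)
    (hi : ∃ i : Fin (k + 1), AlgebraicIndependent (algebraicClosure ℚ ℂ)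
      fun j => y (i.succAbove j)) : k ≤ (n + d).choose d := by
  obtain ⟨hfin, hrank⟩ := finite_ValuesM l d
  obtain ⟨i, hi⟩ := hi
  have h1 := finrank_span_eq_card hi.linearIndependent
  rw [Fintype.card_fin] at h1
  refine le_trans ?_ hrank
  rw [← h1]
  apply Submodule.finrank_mono
  rw [Submodule.span_le]
  rintro _ ⟨j, rfl⟩
  exact (mem_ValuesM l d _).mpr (hyV _)

/-- the spaces for one degree -/
def Spaces {n : ℕ} (l : Fin n → ℂ) (d k D : ℕ) : Set (Submodule (algebraicClosure ℚ ℂ) ℂ) :=
  {W | ∃ y ∈ Points l d k D, (W : Set ℂ) = Values l d ∩ GeneratedField y}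

theorem encard_Spaces {n : ℕ} (l : Fin n → ℂ) (d k D : ℕ) : (Spaces l d k D).encard ≤
    ((2 * (k + 1) * D + 2) ^ ((k + 1) * (n + d).choose d + (D + 1) ^ (k + 1)) : ℕ) := by
  classical
  refine le_trans ?_ (level l d k D)
  choose! g hg hgW using fun (W : Submodule (algebraicClosure ℚ ℂ) ℂ) (hW : W ∈ Spaces l d k D) => hW
  refine Set.encard_le_encard_of_injOn (f := fun W => GeneratedField (g W)) ?_ ?_
  · intro W hW
    exact ⟨g W, hg W hW, rfl⟩
  · intro W hW W' hW' h
    apply SetLike.coe_injective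
    rw [hgW W hW, hgW W' hW']
    have h' : GeneratedField (g W) = GeneratedField (g W') := h
    rw [h']

theorem exists_space' {n : ℕ} (l : Fin n → ℂ) (d k : ℕ) (y : Fin (k + 1) → ℂ)
    (hy : ∀ i, y i ∈ Values l d) : ∃ W : Submodule (algebraicClosure ℚ ℂ) ℂ,
      (W : Set ℂ) = Values l d ∩ GeneratedField y ∧ ∀ i, y i ∈ W := by
  have h1 : GeneratedField y =
      (Pool.Agent.Zk18.Md.KK (algebraicClosure ℚ ℂ) (Set.range y) : Set ℂ) :=
    Pool.Agent.Zk18.Fd.Fld_eq y
  refine ⟨ValuesM l d ⊓ Subalgebra.toSubmodule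
    (Pool.Agent.Zk18.Md.KK (algebraicClosure ℚ ℂ) (Set.range y)).toSubalgebra,
    ?_, fun i => ⟨(mem_ValuesM l d _).mpr (hy i), ?_⟩⟩
  · ext x
    rw [h1]
    constructor
    · rintro ⟨h2, h3⟩
      exact ⟨(mem_ValuesM l d _).mp h2, h3⟩
    · rintro ⟨h2, h3⟩
      exact ⟨(mem_ValuesM l d _).mpr h2, h3⟩
  · exact Pool.Agent.Zk18.Fd.mem_KK_of_mem ⟨i, rfl⟩

theorem exists_space {n : ℕ} (l : Fin n → ℂ) (d k D : ℕ) (y : Fin (k + 1) → ℂ)
    (hy : y ∈ Points l d k D) : ∃ W ∈ Spaces l d k D, ∀ i, y i ∈ W := by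
  obtain ⟨W, hW, hyW⟩ := exists_space' l d k y hy.1
  exact ⟨W, ⟨y, hy, hW⟩, hyW⟩

theorem dependent {n : ℕ} (l : Fin n → ℂ) (d k : ℕ)
    (W : Submodule (algebraicClosure ℚ ℂ) ℂ) (y : Fin (k + 1) → ℂ)
    (P : MvPolynomial (Fin (k + 1)) (algebraicClosure ℚ ℂ)) (hP : P ≠ 0)
    (hPy : MvPolynomial.aeval y P = 0) (hWy : (W : Set ℂ) = Values l d ∩ GeneratedField y)
    (x : Fin (k + 1) → ℂ)
    (hx : ∀ i, x i ∈ W) : ¬ AlgebraicIndependent (algebraicClosure ℚ ℂ) x := by
  classical
  intro hind
  have h1 : GeneratedField y =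
      (Pool.Agent.Zk18.Md.KK (algebraicClosure ℚ ℂ) (Set.range y) : Set ℂ) :=
    Pool.Agent.Zk18.Fd.Fld_eq y
  have h2 := Pool.Agent.Zk18.Fd.rank_le y P hP hPy
  have h3 : (AlgebraicIndependent.matroid (algebraicClosure ℚ ℂ) ℂ).Indep (Set.range x) := by
    rw [AlgebraicIndependent.matroid_indep_iff]
    exact hind.coe_range
  have h4 : Set.range x ⊆
      (AlgebraicIndependent.matroid (algebraicClosure ℚ ℂ) ℂ).closure (Set.range y) := by
    rintro _ ⟨i, rfl⟩
    rw [← Pool.Agent.Zk18.Md.mem_KK]
    have h5 : x i ∈ (W : Set ℂ) := hx i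
    rw [hWy, h1] at h5
    exact h5.2
  have h5 := h3.encard_le_eRk_of_subset h4
  rw [Matroid.eRk_closure_eq] at h5
  have h6 := h5.trans h2
  have h7 : (Set.range x).encard = ((k + 1 : ℕ) : ℕ∞) := by
    rw [← Set.image_univ, hind.injective.encard_image, Set.encard_univ]
    simp
  rw [h7] at h6
  have h8 : k + 1 ≤ k := by exact_mod_cast h6
  omega

theorem Spaces_dependent {n : ℕ} (l : Fin n → ℂ) (d k D : ℕ)
    (W : Submodule (algebraicClosure ℚ ℂ) ℂ) (hW : W ∈ Spaces l d k D) (x : Fin (k + 1) → ℂ)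
    (hx : ∀ i, x i ∈ W) : ¬ AlgebraicIndependent (algebraicClosure ℚ ℂ) x := by
  obtain ⟨y, ⟨-, -, P, hP, -, hPy, -⟩, hWy⟩ := hW
  exact dependent l d k W y P hP hPy hWy x hx

/-- (auxiliary) The points `y = (y_0, ..., y_k)` with coordinates in `Values l d`, `k` of them
algebraically independent, `1, y_0, ..., y_k` linearly independent over the algebraic numbers, such that
`P(y) = 0` for a nonzero polynomial `P` of degree at most `D` in each variable such that on `P = 0` there
is no nonconstant polynomial curve through `y` with at most `max(1, binom(n + d, d) - k - 3)`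
exponents. -/
def ThinPoints {n : ℕ} (l : Fin n → ℂ) (d k D : ℕ) : Set (Fin (k + 1) → ℂ) :=
  {y | (∀ i, y i ∈ Values l d) ∧
    (∃ i : Fin (k + 1), AlgebraicIndependent (algebraicClosure ℚ ℂ) fun j => y (i.succAbove j)) ∧
    LinearIndependent (algebraicClosure ℚ ℂ) (Fin.cons 1 y : Fin (k + 1 + 1) → ℂ) ∧
    ∃ P : MvPolynomial (Fin (k + 1)) (algebraicClosure ℚ ℂ),
      P ≠ 0 ∧ (∀ i, P.degreeOf i ≤ D) ∧ MvPolynomial.aeval y P = 0 ∧
      ∀ c : Fin (k + 1) → Polynomial ℂ, (∀ i, (c i).coeff 0 = y i) → MvPolynomial.aeval c P = 0 →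
        (Pool.Agent.Zk18.Th.sup c).card + 4 ≤ max 5 ((n + d).choose d + 1 - k) →
          ∀ i, c i = Polynomial.C (y i)}

/-- the number `1` is a value -/
theorem one_mem_ValuesM {n : ℕ} (l : Fin n → ℂ) (d : ℕ) : (1 : ℂ) ∈ ValuesM l d := by
  rw [mem_ValuesM]
  exact ⟨1, by rw [MvPolynomial.totalDegree_one]; exact Nat.zero_le _, map_one _⟩

/-- the fields for one degree -/
theorem thin_level {n : ℕ} (l : Fin n → ℂ) (d k D : ℕ) :
    {E : Set ℂ | ∃ y ∈ ThinPoints l d k D, E = GeneratedField y}.encard ≤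
      ((2 * (k + 1) * D + 2) ^ ((k + 1) * (n + d).choose d + (D + 1) ^ (k + 1)) : ℕ) := by
  obtain ⟨hfin, hrank⟩ := finite_ValuesM l d
  have h1 := Pool.Agent.Zk18.Thk.encard_fields Pool.Agent.Zk99.Th18.t_LOWK Pool.Agent.Zk27.Th18.t_GLI (Pool.Agent.Zk18.Th.gai Pool.Agent.Zk27.Th18.t_GLI) (ValuesM l d) hfin
    (one_mem_ValuesM l d) ((n + d).choose d) hrank k D
  have h2 : 2 * ((k + 1) * D + 1) = 2 * (k + 1) * D + 2 := by ring
  rw [h2] at h1
  refine le_trans (Set.encard_le_encard ?_) h1
  rintro E ⟨y, ⟨hyV, hyI, hind, P, hP, hPD, hPy, hNC⟩, rfl⟩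
  exact ⟨y, P, fun i => (mem_ValuesM l d _).mpr (hyV i), hyI, hind, hP, hPD, hPy, hNC, rfl⟩

/-- the degrees are bounded -/
theorem thin_bounded {n : ℕ} (l : Fin n → ℂ) (d k : ℕ) :
    ∃ D₀ : ℕ, ∀ D, ThinPoints l d k D ⊆ ThinPoints l d k D₀ := by
  obtain ⟨hfin, -⟩ := finite_ValuesM l d
  obtain ⟨s, hs⟩ := Pool.Agent.Zk18.Dg.degree_bound (ValuesM l d) hfin (one_mem_ValuesM l d) k
  refine ⟨s, ?_⟩
  rintro D y ⟨hyV, ⟨i, hi⟩, hind, P, hP, -, hPy, hNC⟩
  obtain ⟨Q, hQ0, hQs, hQy⟩ := hs y (fun i => (mem_ValuesM l d _).mpr (hyV i)) ⟨i, hi⟩ ⟨P, hP, hPy⟩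
  refine ⟨hyV, ⟨i, hi⟩, hind, Q, hQ0, hQs, hQy, ?_⟩
  intro c hc hcQ
  exact hNC c hc (Pool.Agent.Zk18.Dg.curve_transfer y i hi P Q hQ0 hPy c hc hcQ)

/-- the spaces for one degree -/
def ThinSpaces {n : ℕ} (l : Fin n → ℂ) (d k D : ℕ) : Set (Submodule (algebraicClosure ℚ ℂ) ℂ) :=
  {W | ∃ y ∈ ThinPoints l d k D, (W : Set ℂ) = Values l d ∩ GeneratedField y}

theorem encard_ThinSpaces {n : ℕ} (l : Fin n → ℂ) (d k D : ℕ) : (ThinSpaces l d k D).encard ≤
    ((2 * (k + 1) * D + 2) ^ ((k + 1) * (n + d).choose d + (D + 1) ^ (k + 1)) : ℕ) := by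
  classical
  refine le_trans ?_ (thin_level l d k D)
  choose! g hg hgW using
    fun (W : Submodule (algebraicClosure ℚ ℂ) ℂ) (hW : W ∈ ThinSpaces l d k D) => hW
  refine Set.encard_le_encard_of_injOn (f := fun W => GeneratedField (g W)) ?_ ?_
  · intro W hW
    exact ⟨g W, hg W hW, rfl⟩
  · intro W hW W' hW' h
    apply SetLike.coe_injective
    rw [hgW W hW, hgW W' hW']
    have h' : GeneratedField (g W) = GeneratedField (g W') := h
    rw [h']

/-- the exponents of a curve -/
theorem exponents {m : ℕ} (c : Fin m → Polynomial ℂ) :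
    {r : ℕ | r ≠ 0 ∧ ∃ i, (c i).coeff r ≠ 0}.encard = (Pool.Agent.Zk18.Th.sup c).card := by
  rw [← Set.encard_coe_eq_coe_finsetCard]
  congr 1
  ext r
  rw [Finset.mem_coe, Pool.Agent.Zk18.Th.mem_sup]
  rfl

/-- a curve with few exponents, or one of the points of `ThinPoints` -/
theorem mem_ThinPoints {n : ℕ} (l : Fin n → ℂ) (d k D : ℕ) (hk : 0 < k) (y : Fin (k + 1) → ℂ)
    (hyV : ∀ i, y i ∈ Values l d)
    (hi : ∃ i : Fin (k + 1), AlgebraicIndependent (algebraicClosure ℚ ℂ)
      fun j => y (i.succAbove j)) (hD : RelationOfDegree D y)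
    (hno : ¬ OnPolynomialCurve (max 1 ((n + d).choose d - (k + 3))) y) :
    y ∈ ThinPoints l d k D := by
  obtain ⟨P, hP, hPD, hPy⟩ := hD
  have hi' := hi
  obtain ⟨i, hi⟩ := hi
  refine ⟨hyV, hi', ?_, P, hP, hPD, hPy, ?_⟩
  · by_contra hdep
    obtain ⟨a, ha0, haQ⟩ := Pool.Agent.Zk85.Th18.t_LIN (algebraicClosure ℚ ℂ) ℂ k hk y i hi hdep
    apply hno
    obtain ⟨i₁, hi₁⟩ : ∃ i₁, a i₁ ≠ 0 := by
      by_contra h
      push Not at h
      exact ha0 (funext h)
    refine ⟨_, fun i => ?_, ⟨i₁, fun h => hi₁ ?_⟩, ?_, haQ⟩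
    · simp
    · have h1 := congrArg (fun p : Polynomial ℂ => p.coeff 1) h
      simp only [Polynomial.coeff_add, Polynomial.coeff_C_mul, Polynomial.coeff_X_one, mul_one,
        Polynomial.coeff_C, one_ne_zero, if_false, zero_add] at h1
      exact (map_eq_zero _).mp h1
    · rw [exponents]
      have h9 : Pool.Agent.Zk18.Th.sup (fun l => Polynomial.C (y l) +
          Polynomial.C (algebraMap (algebraicClosure ℚ ℂ) ℂ (a l)) * Polynomial.X) ⊆ {1} := by
        intro q hq
        obtain ⟨hq0, l, hl⟩ := (Pool.Agent.Zk18.Th.mem_sup _ _).mp hq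
        rw [Finset.mem_singleton]
        by_contra hq1
        apply hl
        rw [Polynomial.coeff_add, Polynomial.coeff_C, if_neg hq0, Polynomial.coeff_C_mul,
          Polynomial.coeff_X, if_neg (Ne.symm hq1), mul_zero, add_zero]
      have h10 := Finset.card_le_card h9
      rw [Finset.card_singleton] at h10
      exact_mod_cast h10.trans (le_max_left _ _)
  · intro c hc hcP hcard
    by_contra hne
    push Not at hne
    refine hno ⟨c, hc, hne, ?_, fun Q hQ =>
      Pool.Agent.Zk18.Dg.curve_transfer y i hi Q P hP hQ c hc hcP⟩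
    rw [exponents]
    have h1 : (Pool.Agent.Zk18.Th.sup c).card ≤ max 1 ((n + d).choose d - (k + 3)) := by
      rcases le_max_iff.mp hcard with h | h
      · exact le_trans (by omega) (le_max_left _ _)
      · exact le_trans (by omega) (le_max_right _ _)
    exact_mod_cast h1

/-- pairs on a polynomial curve with few exponents are polynomials of small degree in one number -/
theorem values_of_curve (e : ℕ) (y : Fin (1 + 1) → ℂ)
    (hi : ∃ i : Fin (1 + 1), AlgebraicIndependent (algebraicClosure ℚ ℂ)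
      fun j => y (i.succAbove j)) (D : ℕ) (hD : RelationOfDegree D y) (h : OnPolynomialCurve e y) :
    PolynomialValues e y := by
  have hKa : IsAlgClosed (algebraicClosure ℚ ℂ) := (algebraicClosure.isAlgClosure ℚ ℂ).isAlgClosed
  obtain ⟨P, hP, -, hPy⟩ := hD
  obtain ⟨i, hi⟩ := hi
  have htr : Transcendental (algebraicClosure ℚ ℂ) (y (i.succAbove 0)) := hi.transcendental 0
  obtain ⟨c, hc, hne, hcard, hcQ⟩ := h
  obtain ⟨t, f, hf, hy⟩ := Pool.Agent.Zk18.Th.thin_param y _ htr P hP hPy c hc (hcQ P hPy) hne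
  rw [exponents] at hcard
  have h1 : (Pool.Agent.Zk18.Th.sup c).card ≤ e := by exact_mod_cast hcard
  exact ⟨t, f, fun l => (hf l).trans h1, hy⟩

/-- one number with a relation is algebraic -/
theorem alg_of_rel {A : Type} [CommRing A] [Algebra (algebraicClosure ℚ ℂ) A] (z : Fin (0 + 1) → A)
    (P : MvPolynomial (Fin (0 + 1)) (algebraicClosure ℚ ℂ)) (hP : P ≠ 0)
    (h : MvPolynomial.aeval z P = 0) (j : Fin (0 + 1)) :
    IsAlgebraic (algebraicClosure ℚ ℂ) (z j) := by
  by_contra htr
  let hu : Unique (Fin (0 + 1)) := inferInstanceAs (Unique (Fin 1))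
  have hj : j = default := Subsingleton.elim _ _
  have h1 : AlgebraicIndependent (algebraicClosure ℚ ℂ) z := by
    rw [algebraicIndependent_unique_type_iff, ← hj]
    exact htr
  exact hP (h1 (h.trans (map_zero _).symm))

/-- the case `k = 0` -/
theorem mem_Points {n : ℕ} (l : Fin n → ℂ) (d D : ℕ) (y : Fin (0 + 1) → ℂ)
    (hyV : ∀ i, y i ∈ Values l d)
    (hi : ∃ i : Fin (0 + 1), AlgebraicIndependent (algebraicClosure ℚ ℂ)
      fun j => y (i.succAbove j)) (hD : RelationOfDegree D y) : y ∈ Points l d 0 D := by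
  obtain ⟨P, hP, hPD, hPy⟩ := hD
  have hi' := hi
  obtain ⟨i, hi⟩ := hi
  refine ⟨hyV, hi', P, hP, hPD, hPy, ?_⟩
  intro c hc hcP j
  -- the coordinate of the curve is algebraic over the constants
  have h1 : IsAlgebraic (algebraicClosure ℚ ℂ) (c j) := alg_of_rel c P hP hcP j
  obtain ⟨p, hp0, hp⟩ := h1
  have h2 : (p.map (algebraMap (algebraicClosure ℚ ℂ) ℂ)).comp (c j) = 0 := by
    rw [← hp, Polynomial.comp, Polynomial.eval₂_map, Polynomial.aeval_def]
    rfl
  rw [Polynomial.comp_eq_zero_iff] at h2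
  rcases h2 with h2 | h2
  · rw [Polynomial.map_eq_zero_iff (algebraMap (algebraicClosure ℚ ℂ) ℂ).injective] at h2
    exact absurd h2 hp0
  · rw [h2.2, hc j]

/-- the spaces -/
noncomputable def Fam {n : ℕ} (l : Fin n → ℂ) (d : ℕ) (D₀ D₁ : ℕ → ℕ) (k D : ℕ) :
    Set (Submodule (algebraicClosure ℚ ℂ) ℂ) :=
  if k = 0 then Spaces l d k (min D (D₀ k)) else ThinSpaces l d k (min D (D₁ k))

theorem mono_bound (M k D D' : ℕ) (h : D' ≤ D) :
    ((2 * (k + 1) * D' + 2) ^ ((k + 1) * M + (D' + 1) ^ (k + 1)) : ℕ) ≤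
      (2 * (k + 1) * D + 2) ^ ((k + 1) * M + (D + 1) ^ (k + 1)) := by
  refine (Nat.pow_le_pow_left ?_ _).trans (Nat.pow_le_pow_right (by omega) ?_)
  · exact Nat.add_le_add_right (Nat.mul_le_mul_left _ h) 2
  · exact Nat.add_le_add_left (Nat.pow_le_pow_left (by omega) _) _

/-- **Main result.** -/
theorem result {n : ℕ} (l : Fin n → ℂ) (_hl : ∀ i, IsAlgebraic ℚ (Complex.exp (l i))) (d : ℕ) :
    ∃ 𝒲 : ℕ → ℕ → Set (Submodule (algebraicClosure ℚ ℂ) ℂ), (⋃ k, ⋃ D, 𝒲 k D).Finite ∧
      ∀ k D, (𝒲 k D).encard ≤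
          ((2 * (k + 1) * D + 2) ^ ((k + 1) * (n + d).choose d + (D + 1) ^ (k + 1)) : ℕ) ∧
        (∀ W ∈ 𝒲 k D, (∀ x ∈ W, x ∈ Values l d) ∧ ∀ x : Fin (k + 1) → ℂ, (∀ i, x i ∈ W) →
          ¬ AlgebraicIndependent (algebraicClosure ℚ ℂ) x) ∧
        ∀ y : Fin (k + 1) → ℂ, (∀ i, y i ∈ Values l d) →
          (∃ i : Fin (k + 1), AlgebraicIndependent (algebraicClosure ℚ ℂ)
            fun j => y (i.succAbove j)) →
          RelationOfDegree D y → (∃ W ∈ 𝒲 k D, ∀ i, y i ∈ W) ∨
            (OnPolynomialCurve (max 1 ((n + d).choose d - (k + 3))) y ∧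
              (k = 1 → PolynomialValues (max 1 ((n + d).choose d - 4)) y)) := by
  classical
  choose D₀ hD₀ using bounded l d
  choose D₁ hD₁ using thin_bounded l d
  have hF0 : ∀ D, Fam l d D₀ D₁ 0 D = Spaces l d 0 (min D (D₀ 0)) := fun D => if_pos rfl
  have hF : ∀ k D, k ≠ 0 → Fam l d D₀ D₁ k D = ThinSpaces l d k (min D (D₁ k)) :=
    fun k D hk => if_neg hk
  refine ⟨Fam l d D₀ D₁, ?_, fun k D => ⟨?_, ?_, ?_⟩⟩
  · refine Set.Finite.subset (s := (⋃ D ∈ Finset.range (D₀ 0 + 1), Spaces l d 0 D) ∪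
      ⋃ k ∈ Finset.range ((n + d).choose d + 1),
        ⋃ D ∈ Finset.range (D₁ k + 1), ThinSpaces l d k D) ?_ ?_
    · refine Set.Finite.union (Set.Finite.biUnion (Finset.finite_toSet _) fun D _ => ?_)
        (Set.Finite.biUnion (Finset.finite_toSet _) fun k _ => ?_)
      · exact Set.finite_of_encard_le_coe (encard_Spaces l d 0 D)
      · refine Set.Finite.biUnion (Finset.finite_toSet _) fun D _ => ?_
        exact Set.finite_of_encard_le_coe (encard_ThinSpaces l d k D)
    · intro W hW
      rw [Set.mem_iUnion] at hW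
      obtain ⟨k, hW⟩ := hW
      rw [Set.mem_iUnion] at hW
      obtain ⟨D, hW⟩ := hW
      by_cases hk1 : k = 0
      · subst hk1
        rw [hF0] at hW
        left
        rw [Set.mem_iUnion₂]
        exact ⟨min D (D₀ 0), Finset.mem_range.mpr (Nat.lt_succ_of_le (min_le_right _ _)), hW⟩
      · rw [hF k D hk1] at hW
        have hk : k ≤ (n + d).choose d := by
          obtain ⟨y, hy, -⟩ := hW
          exact bounded_length l d k y hy.1 hy.2.1
        right
        rw [Set.mem_iUnion₂]
        refine ⟨k, Finset.mem_range.mpr (Nat.lt_succ_of_le hk), ?_⟩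
        rw [Set.mem_iUnion₂]
        exact ⟨min D (D₁ k), Finset.mem_range.mpr (Nat.lt_succ_of_le (min_le_right _ _)), hW⟩
  · by_cases hk1 : k = 0
    · subst hk1
      rw [hF0]
      refine (encard_Spaces l d 0 _).trans ?_
      exact_mod_cast mono_bound ((n + d).choose d) 0 D (min D (D₀ 0)) (min_le_left _ _)
    · rw [hF k D hk1]
      refine (encard_ThinSpaces l d k _).trans ?_
      exact_mod_cast mono_bound ((n + d).choose d) k D (min D (D₁ k)) (min_le_left _ _)
  · intro W hW
    by_cases hk1 : k = 0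
    · subst hk1
      rw [hF0] at hW
      refine ⟨fun x hx => ?_, Spaces_dependent l d 0 _ W hW⟩
      obtain ⟨y, -, hWy⟩ := hW
      have h1 : x ∈ (W : Set ℂ) := hx
      rw [hWy] at h1
      exact h1.1
    · rw [hF k D hk1] at hW
      obtain ⟨y, ⟨-, -, -, P, hP, -, hPy, -⟩, hWy⟩ := hW
      refine ⟨fun x hx => ?_, dependent l d k W y P hP hPy hWy⟩
      have h1 : x ∈ (W : Set ℂ) := hx
      rw [hWy] at h1
      exact h1.1
  · intro y hyV hi hD
    by_cases hk1 : k = 0
    · subst hk1
      rw [hF0]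
      left
      have h1 := mem_Points l d D y hyV hi hD
      have h2 : y ∈ Points l d 0 (min D (D₀ 0)) := by
        rcases le_total D (D₀ 0) with h | h
        · rw [min_eq_left h]; exact h1
        · rw [min_eq_right h]; exact hD₀ 0 D h1
      exact exists_space l d 0 _ y h2
    · rw [hF k D hk1]
      by_cases hcurve : OnPolynomialCurve (max 1 ((n + d).choose d - (k + 3))) y
      · right
        refine ⟨hcurve, ?_⟩
        rintro rfl
        exact values_of_curve _ y hi D hD hcurve
      · left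
        have h1 := mem_ThinPoints l d k D (Nat.pos_of_ne_zero hk1) y hyV hi hD hcurve
        have h2 : y ∈ ThinPoints l d k (min D (D₁ k)) := by
          rcases le_total D (D₁ k) with h | h
          · rw [min_eq_left h]; exact h1
          · rw [min_eq_right h]; exact hD₁ k D h1
        obtain ⟨W, hW, hyW⟩ := exists_space' l d k y hyV
        exact ⟨W, ⟨y, h2, hW⟩, hyW⟩

end Pool.Agent.Results.MP_60829e_nt.FinitelyManySpaces
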