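import Mathlib
import Pool.Agent.Zk44.UQ.OneBasis

/-!
# One basis of the space of all logarithms, for computations of all lengths

The conjecture says that linearly independent logarithms of algebraic numbers satisfy no polynomial
relation. For `L ≥ 0` consider the polynomials of any degree which can be computed from the variables and
algebraic numbers with at most `L` additions and arbitrarily many multiplications.

**Theorem.** Let `L₀ ≥ 0`, let `ξ_0, ξ_1, …` be arbitrary complex numbers and let `h : ℕ → ℕ` be
nondecreasing. Every linear space `V` over `ℚ` of logarithms of algebraic numbers, of finite or infinite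
dimension `> L₀ ^ 2 + 3 L₀`, has a basis `b_0, b_1, …` such that for all `L` and `M` with `L ≤ L₀` or
`L ^ 2 + 3 L < M`: no nonzero polynomial which is computed from the variables, the numbers
`b_0, …, b_{M-1}`, the numbers `ξ_0, …, ξ_{h(M)-1}` and algebraic numbers with at most `L` additions
vanishes at distinct elements among `b_M, b_{M+1}, …`.

So ONE basis of the space of ALL logarithms of algebraic numbers works for all `L`: the tails of the basis
(beginning at `M > L ^ 2 + 3 L`) satisfy no relation with at most `L` additions, even over the earlier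
elements and over more and more of the prescribed numbers `ξ_i` (for example all periods). For `M = 0` and
`L = L₀` this is the statement for a fixed number `L₀` of additions and finitely many parameters. The
conjecture is equivalent to the same statement without the condition on `L` and `M`: if a space of
dimension `N` has a basis without relations of any kind then so has every basis of it.

The proof. Let `x_1, …, x_N` be independent logarithms of algebraic numbers (they are linearly independent
over the algebraic numbers by the theorem of Baker). If `N > L ^ 2 + 3 L` then there is a nonzero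
polynomial `f` in `N` variables such that `f(b) = 0` for all rational points `b` such that
`e₀ + ∑ b_i x_i` satisfies a nontrivial relation with at most `L` additions over given numbers
(`Pool.Agent.Zk44.UP.poly_log`; the proof uses an ultrapower of `ℂ` and the connection
`(∇ ω)(D) = Δ (ω(D)) - ω([Δ, D])`, where the constants of the derivation `Δ` are the algebraic numbers). The
number of the parameters does not matter. The elements of the basis are chosen one after the other: the
first `L₀ ^ 2 + 3 L₀ + 1` in a fixed subspace of this dimension, the element `b_N` in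
`e + ⟨b_0, …, b_{N-1}⟩`, where `e` is the first element of an enumeration of `V` which is not in the
span, outside of the union of the hypersurfaces for all `L` with `L ≤ L₀` or `L ^ 2 + 3 L < N`.
-/

set_option autoImplicit false

namespace Pool.Agent.Results.MP_60829e_nt.OneBasisForAllLengths

open Pool.Agent.R351

/-- The polynomials `G 0, …, G (L - 1)` are computed with one addition each: `G l` is the sum of two
products of powers of the variables, of the numbers `t o`, of the earlier polynomials
`G 0, …, G (l - 1)`, and of an algebraic number. -/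
def Computed {g m : ℕ} (t : Fin g → ℂ) (L : ℕ) (G : ℕ → MvPolynomial (Fin m) ℂ) : Prop :=
  ∃ (c : ℕ → Bool → algebraicClosure ℚ ℂ) (u : ℕ → Bool → Fin g → ℕ) (a : ℕ → Bool → Fin m → ℕ)
    (h : ℕ → Bool → ℕ → ℕ), ∀ l < L, G l = ∑ b : Bool,
      MvPolynomial.C ((c l b : ℂ) * ∏ o, t o ^ u l b o) * (∏ i, MvPolynomial.X i ^ a l b i) *
        ∏ l' ∈ Finset.range l, G l' ^ h l b l'

/-- No nonzero polynomial which is computed from the variables and the numbers `t o` with at most `L`
additions vanishes at `y`. -/
def NoRelation {g m : ℕ} (t : Fin g → ℂ) (L : ℕ) (y : Fin m → ℂ) : Prop :=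
  ∀ G : ℕ → MvPolynomial (Fin m) ℂ, Computed t L G →
    ∀ j < L, G j ≠ 0 → MvPolynomial.eval y (G j) ≠ 0

theorem Computed.cmp {g m : ℕ} {t : Fin g → ℂ} {L : ℕ} {G : ℕ → MvPolynomial (Fin m) ℂ}
    (h : Computed t L G) : Cmp (algebraicClosure ℚ ℂ) (btm m t) L G := by
  obtain ⟨c, u, a, e, h⟩ := h
  refine ⟨c, fun l b j => Sum.elim (u l b) (a l b) j, e, fun l hl => ?_⟩
  rw [h l hl]
  refine Finset.sum_congr rfl fun b _ => ?_
  rw [Fintype.prod_sum_type, Algebra.smul_def, IsScalarTower.algebraMap_apply
    (algebraicClosure ℚ ℂ) ℂ (MvPolynomial (Fin m) ℂ)]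
  unfold btm
  simp only [Sum.elim_inl, Sum.elim_inr, map_mul, map_prod, map_pow, MvPolynomial.algebraMap_eq]
  have h1 : algebraMap (algebraicClosure ℚ ℂ) ℂ (c l b) = (c l b : ℂ) := rfl
  rw [h1]
  ring

/-- **Main result.** The basis is `b i = z i` for `i` in `ι`, which is the set of all natural numbers or an
initial segment. -/
theorem result (L₀ : ℕ) (ξ : ℕ → ℂ) (h : ℕ → ℕ) (hh : Monotone h) (V : Submodule ℚ ℂ)
    (hV : ∀ v ∈ V, IsAlgebraic ℚ (Complex.exp v))
    (hd : ((L₀ ^ 2 + 3 * L₀ : ℕ) : Cardinal) < Module.rank ℚ V) :
    ∃ (z : ℕ → ℂ) (ι : Set ℕ) (b : Module.Basis ι ℚ V), (∀ i : ι, (b i : ℂ) = z i) ∧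
      (∀ i ∈ ι, ∀ j < i, j ∈ ι) ∧
      ∀ L M : ℕ, (L ≤ L₀ ∨ L ^ 2 + 3 * L < M) →
        ∀ (n : ℕ) (σ : Fin n → ι), Function.Injective σ → (∀ j, M ≤ (σ j : ℕ)) →
          NoRelation (Fin.append (fun i : Fin M => z i) (fun o : Fin (h M) => ξ o)) L
            (fun j => z (σ j)) := by
  have hd' : ((L₀ * (L₀ + 3) + 1 : ℕ) : Cardinal) ≤ Module.rank ℚ V := by
    have h1 : L₀ * (L₀ + 3) + 1 = (L₀ ^ 2 + 3 * L₀) + 1 := by ring
    rw [h1]
    have h2 := Order.succ_le_of_lt hd
    rwa [Cardinal.succ_natCast, ← Nat.cast_succ] at h2
  obtain ⟨z, ι, b, hb, hlow, hgood⟩ := Pool.Agent.Zk44.UQ.one_basis_log L₀ V hV hd' ξ h hh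
  refine ⟨z, ι, b, hb, hlow, fun L M hL n σ hσ hM G hG j hj hG0 h0 => hG0 ?_⟩
  have hL' : L ≤ L₀ ∨ L * (L + 3) < M := by
    rcases hL with hL | hL
    · exact Or.inl hL
    · right
      have h1 : L * (L + 3) = L ^ 2 + 3 * L := by ring
      rwa [h1]
  exact hgood L M (h M) hL' le_rfl n σ hσ hM G hG.cmp j hj h0

end Pool.Agent.Results.MP_60829e_nt.OneBasisForAllLengths
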