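import Pool.Agent.Zk18.Cx

/-!
# Siegel's theorem for polynomials in logarithms of algebraic numbers

Let `λ_1, ..., λ_n` be logarithms of algebraic numbers, let `V` be the space of the values
`p(λ_1, ..., λ_n)` of the polynomials `p` of degree at most `d` with algebraic coefficients (for
`d = 1` these are the linear forms `b_0 + b_1 λ_1 + ... + b_n λ_n`), and let `P(X, Y)` be a nonzero
polynomial with algebraic coefficients of total degree at most `D` such that the curve `P = 0` has
no nonconstant polynomial parametrisation. If the conjecture on the algebraic independence of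
logarithms is true, then every solution of `P(x, y) = 0` with `x, y ∈ V` is algebraic. We determine
the structure of the set of the solutions `(x, y) ∈ V × V` which are not algebraic, without any
hypothesis: it consists of at most `D ^ (2 M)` points and of at most `D ^ (2 M)` families
`(f_0(s τ), f_1(s τ))`, `s ≠ 0` algebraic, where `M = binom(n + d, d)` (so `M = n + 1` for `d = 1`),
`(f_0, f_1)` is a nonconstant solution of `P = 0` in Laurent polynomials and `τ` is a transcendental
number such that `τ ^ e ∈ V` for all exponents `e` of `f_0` and `f_1`. In particular there are at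
most `D ^ (2 M)` solutions which are not algebraic if the curve has no Laurent parametrisation
(for example if the genus is positive or if there are at least three points at infinity). If `d = 1`,
then the exponents in a family are very special: in the set consisting of `0` and of the exponents
every nonzero difference occurs at most twice (by the strong six exponentials theorem).

The proof.

* A generic point of an infinite set of solutions is a homomorphism of the coordinate ring of the
  curve to `A ⊗ L`, where `A` is a domain of finite type over the algebraic numbers and `L ⊂ ℂ`. Its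
  coordinates have a pole along a curve in `Spec A`; by evaluation at a suitable point in a disc with
  centre at the pole, with values in the field of Puiseux series, the pole is cancelled, and the
  reduction is a nonconstant Laurent point of the curve (`Rig`).
* By the theorem of Lüroth this gives a birational Laurent point `f` (`Lur`). The generic point is
  `f(g)` for a Laurent series `g` with coefficients in `L`, and by the theorem on the conductor
  (`Cnd`) and a theorem in the style of Rosenlicht (`Ros`) `g = κ τ` with `τ ∈ L` (`Core`, `Gen`).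
* A countability argument gives finitely many families and points. The families are closed curves
  in the affine space of the coefficients (`Orb`), in which the set of all solutions is defined by
  polynomials of degree at most `D`; their number and the number of the isolated points are
  estimated by a form of the theorem of Bezout (`Bez`, `Str`, `Str2`, `Cx`).
-/

set_option autoImplicit false

namespace Pool.Agent.Results.MP_60829e_nt.SiegelForLogarithms

open scoped LaurentPolynomial

/-- The values at `l` of the polynomials of total degree at most `d` with algebraic coefficients. -/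
def Values {n : ℕ} (l : Fin n → ℂ) (d : ℕ) : Set ℂ :=
  {x | ∃ p : MvPolynomial (Fin n) (algebraicClosure ℚ ℂ), p.totalDegree ≤ d ∧
    MvPolynomial.aeval l p = x}

/-- All solutions of `P = 0` in polynomials in one variable are constant. -/
def NoPolynomialSolution (P : MvPolynomial (Fin 2) (algebraicClosure ℚ ℂ)) : Prop :=
  ∀ f : Fin 2 → Polynomial (algebraicClosure ℚ ℂ), MvPolynomial.aeval f P = 0 →
    ∀ i, ∃ a, f i = Polynomial.C a

/-- The solutions `y = (y 0, y 1)` of `P = 0` in the values of the polynomials of degree at most `d`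
at `l`, such that `y 0` and `y 1` are not both algebraic. -/
def Solutions {n : ℕ} (l : Fin n → ℂ) (d : ℕ)
    (P : MvPolynomial (Fin 2) (algebraicClosure ℚ ℂ)) : Set (Fin 2 → ℂ) :=
  {y | (∀ i, y i ∈ Values l d) ∧ MvPolynomial.aeval y P = 0 ∧ ∃ i, Transcendental ℚ (y i)}

/-- `0` and the exponents of two Laurent polynomials -/
def Exponents (f : Fin 2 → (algebraicClosure ℚ ℂ)[T;T⁻¹]) : Set ℤ :=
  {e | e = 0 ∨ ∃ i, (f i).coeff e ≠ 0}

/-- The points `(f 0 (s τ), f 1 (s τ))`, where `s ≠ 0` is an algebraic number. -/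
def Family (f : Fin 2 → (algebraicClosure ℚ ℂ)[T;T⁻¹]) (τ : ℂ) : Set (Fin 2 → ℂ) :=
  {y | ∃ s : algebraicClosure ℚ ℂ, s ≠ 0 ∧
    ∀ i, y i = ∑ e ∈ (f i).coeff.support, ((f i).coeff e : ℂ) * (s * τ) ^ e}

/-- the space of the values -/
noncomputable def ValuesM {n : ℕ} (l : Fin n → ℂ) (d : ℕ) : Submodule (algebraicClosure ℚ ℂ) ℂ :=
  (MvPolynomial.restrictTotalDegree (Fin n) (algebraicClosure ℚ ℂ) d).map
    (MvPolynomial.aeval l : MvPolynomial (Fin n) (algebraicClosure ℚ ℂ) →ₐ[_] ℂ).toLinearMap

theorem mem_ValuesM {n : ℕ} (l : Fin n → ℂ) (d : ℕ) (x : ℂ) : x ∈ ValuesM l d ↔ x ∈ Values l d := by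
  rw [ValuesM, Submodule.mem_map]
  constructor
  · rintro ⟨p, hp, rfl⟩
    exact ⟨p, (MvPolynomial.mem_restrictTotalDegree _ _ _).mp hp, rfl⟩
  · rintro ⟨p, hp, rfl⟩
    exact ⟨p, (MvPolynomial.mem_restrictTotalDegree _ _ _).mpr hp, rfl⟩

/-- the products of `d` elements of `1, l_1, ..., l_n` -/
noncomputable def mon {n : ℕ} (l : Fin n → ℂ) (d : ℕ) (s : Sym (Option (Fin n)) d) : ℂ :=
  ((s : Multiset (Option (Fin n))).map (fun o => o.elim 1 l)).prod

theorem ValuesM_le {n : ℕ} (l : Fin n → ℂ) (d : ℕ) :
    ValuesM l d ≤ Submodule.span (algebraicClosure ℚ ℂ) (Set.range (mon l d)) := by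
  classical
  rintro _ ⟨p, hp, rfl⟩
  have hp' : p.totalDegree ≤ d := (MvPolynomial.mem_restrictTotalDegree _ _ _).mp hp
  change MvPolynomial.aeval l p ∈ _
  rw [MvPolynomial.aeval_def, MvPolynomial.eval₂_eq]
  refine Submodule.sum_mem _ fun m hm => ?_
  rw [← Algebra.smul_def]
  apply Submodule.smul_mem
  apply Submodule.subset_span
  have hdeg : Multiset.card (Finsupp.toMultiset m) ≤ d := by
    rw [Finsupp.card_toMultiset]
    exact (MvPolynomial.le_totalDegree hm).trans hp'
  refine ⟨⟨(Finsupp.toMultiset m).map some +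
    Multiset.replicate (d - Multiset.card (Finsupp.toMultiset m)) none, ?_⟩, ?_⟩
  · rw [Multiset.card_add, Multiset.card_map, Multiset.card_replicate]
    omega
  · have h1 : ((Finsupp.toMultiset m).map l).prod = ∏ i ∈ m.support, l i ^ m i := by
      rw [Finsupp.toMultiset_map, Finsupp.prod_toMultiset,
        Finsupp.prod_mapDomain_index (fun _ => pow_zero _) (fun _ _ _ => pow_add _ _ _)]
      rfl
    change (((Finsupp.toMultiset m).map some +
      Multiset.replicate (d - Multiset.card (Finsupp.toMultiset m)) none).map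
        (fun o : Option (Fin n) => o.elim 1 l)).prod = _
    rw [Multiset.map_add, Multiset.prod_add, Multiset.map_map, Multiset.map_replicate,
      Multiset.prod_replicate]
    have h2 : ((fun o : Option (Fin n) => o.elim 1 l) ∘ some) = l := rfl
    rw [h2, h1]
    simp

theorem finite_ValuesM {n : ℕ} (l : Fin n → ℂ) (d : ℕ) :
    FiniteDimensional (algebraicClosure ℚ ℂ) (ValuesM l d) ∧
      Module.finrank (algebraicClosure ℚ ℂ) (ValuesM l d) ≤ (n + d).choose d := by
  classical
  have hfin : FiniteDimensional (algebraicClosure ℚ ℂ)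
      (Submodule.span (algebraicClosure ℚ ℂ) (Set.range (mon l d))) :=
    FiniteDimensional.span_of_finite _ (Set.finite_range _)
  refine ⟨Submodule.finiteDimensional_of_le (ValuesM_le l d), ?_⟩
  refine (Submodule.finrank_mono (ValuesM_le l d)).trans ?_
  refine (finrank_range_le_card (R := algebraicClosure ℚ ℂ) (mon l d)).trans ?_
  rw [Sym.card_sym_eq_choose, Fintype.card_option, Fintype.card_fin]
  have h1 : n + 1 + d - 1 = n + d := by omega
  rw [h1]

theorem one_mem {n : ℕ} (l : Fin n → ℂ) (d : ℕ) : (1 : ℂ) ∈ Values l d :=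
  ⟨1, by rw [MvPolynomial.totalDegree_one]; exact Nat.zero_le _, map_one _⟩

theorem values_one {n : ℕ} (l : Fin n → ℂ) (hl : ∀ i, IsAlgebraic ℚ (Complex.exp (l i))) (x : ℂ)
    (hx : x ∈ Values l 1) : x ∈ Pool.Agent.H301R2.SSE.Lt := by
  have h1 := ValuesM_le l 1 ((mem_ValuesM l 1 x).mpr hx)
  have h2 : Submodule.span (algebraicClosure ℚ ℂ) (Set.range (mon l 1)) ≤
      Pool.Agent.H301R2.SSE.Lt := by
    rw [Submodule.span_le]
    rintro _ ⟨s, rfl⟩
    obtain ⟨o, ho⟩ : ∃ o, (s : Multiset (Option (Fin n))) = {o} :=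
      Multiset.card_eq_one.mp s.2
    change mon l 1 s ∈ Pool.Agent.H301R2.SSE.Lt
    rw [mon, ho, Multiset.map_singleton, Multiset.prod_singleton]
    cases o with
    | none => exact Pool.Agent.H301R2.SSE.Lt_one
    | some i => exact Pool.Agent.H301R2.SSE.Lt_log (hl i)
  exact h2 h1

/-- the strong six exponentials theorem -/
theorem sparse {τ : ℂ} (hτ : Transcendental ℚ τ) (A : Set ℤ)
    (hA : ∀ e ∈ A, τ ^ e ∈ Pool.Agent.H301R2.SSE.Lt) (d : ℤ) (hd : d ≠ 0) :
    {e : ℤ | e ∈ A ∧ e + d ∈ A}.encard ≤ 2 := by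
  have hQB := Pool.Agent.Zk18.Cx.notMem_range.mpr hτ
  have htr := Pool.Agent.Zk18.Cx.transc hQB
  have hτ0 : τ ≠ 0 := by
    rintro rfl
    exact hτ isAlgebraic_zero
  have hli := Pool.Agent.Zk18.linearIndependent_zpow τ htr
  by_contra hcon
  rw [not_le] at hcon
  have h3 : (3 : ℕ∞) ≤ {e : ℤ | e ∈ A ∧ e + d ∈ A}.encard := by
    have := Order.add_one_le_of_lt hcon
    exact this
  obtain ⟨t, ht, htc⟩ := Set.exists_subset_encard_eq h3
  obtain ⟨x, y, z, hxy, hxz, hyz, rfl⟩ := Set.encard_eq_three.mp htc
  have hx := ht (show x ∈ ({x, y, z} : Set ℤ) by simp)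
  have hy := ht (show y ∈ ({x, y, z} : Set ℤ) by simp)
  have hz := ht (show z ∈ ({x, y, z} : Set ℤ) by simp)
  refine Pool.Agent.N770.six (τ ^ d) ?_ (fun j => τ ^ (![x, y, z] j)) ?_ ?_ ?_
  · intro c hc
    have h4 := (linearIndependent_iff'.mp hli) {0, d} (fun k => if k = 0 then c else -1) (by
      rw [Finset.sum_pair hd.symm, if_pos rfl, if_neg hd, zpow_zero, hc, Algebra.smul_def, mul_one,
        neg_smul, one_smul, add_neg_cancel]) d (by simp)
    rw [if_neg hd] at h4
    exact (neg_ne_zero.mpr one_ne_zero) h4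
  · have hinj : Function.Injective ![x, y, z] := by
      intro i j hij
      fin_cases i <;> fin_cases j <;> simp_all
    exact hli.comp _ hinj
  · intro j
    fin_cases j
    · exact hA _ hx.1
    · exact hA _ hy.1
    · exact hA _ hz.1
  · intro j
    have h5 : ∀ e, τ ^ d * τ ^ e = τ ^ (e + d) := by
      intro e
      rw [← zpow_add₀ hτ0, add_comm]
    rw [h5]
    fin_cases j
    · exact hA _ hx.2
    · exact hA _ hy.2
    · exact hA _ hz.2

/-- **Main result.** -/
theorem result {n : ℕ} (l : Fin n → ℂ) (hl : ∀ i, IsAlgebraic ℚ (Complex.exp (l i))) (d D : ℕ)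
    (P : MvPolynomial (Fin 2) (algebraicClosure ℚ ℂ)) (hP : P ≠ 0) (hPD : P.totalDegree ≤ D)
    (hPN : NoPolynomialSolution P) :
    ∃ (E : Finset (Fin 2 → ℂ)) (Φ : Finset ((Fin 2 → (algebraicClosure ℚ ℂ)[T;T⁻¹]) × ℂ)),
      E.card ≤ D ^ (2 * (n + d).choose d) ∧ Φ.card ≤ D ^ (2 * (n + d).choose d) ∧
      (∀ p ∈ Φ, MvPolynomial.aeval p.1 P = 0 ∧ (∃ i, ∃ e : ℤ, e ≠ 0 ∧ (p.1 i).coeff e ≠ 0) ∧
        Transcendental ℚ p.2 ∧ (∀ e ∈ Exponents p.1, p.2 ^ e ∈ Values l d) ∧
        (d = 1 → ∀ k : ℤ, k ≠ 0 →
          {e : ℤ | e ∈ Exponents p.1 ∧ e + k ∈ Exponents p.1}.encard ≤ 2)) ∧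
      Solutions l d P = (E : Set (Fin 2 → ℂ)) ∪ ⋃ p ∈ Φ, Family p.1 p.2 := by
  classical
  obtain ⟨hfin, hrank⟩ := finite_ValuesM l d
  obtain ⟨E, Φ, hE, hΦ, hΦv, hsol⟩ := Pool.Agent.Zk18.Cx.main (ValuesM l d)
    ((mem_ValuesM l d 1).mpr (one_mem l d)) ((n + d).choose d) hrank P hP D hPD (by
      intro f hf i
      obtain ⟨a, ha⟩ := hPN f hf i
      exact ⟨a, ha.symm⟩)
  refine ⟨E, Φ, hE, hΦ, ?_, ?_⟩
  · intro p hp
    obtain ⟨h1, h2, h3, h4⟩ := hΦv p hp
    have h5 : ∀ e ∈ Exponents p.1, p.2 ^ e ∈ Values l d := by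
      rintro e (rfl | ⟨i, hi⟩)
      · rw [zpow_zero]
        exact one_mem l d
      · exact (mem_ValuesM l d _).mp (h4 i e hi)
    refine ⟨h1, h2, h3, h5, ?_⟩
    rintro rfl k hk
    exact sparse h3 _ (fun e he => values_one l hl _ (h5 e he)) k hk
  · have h6 : Solutions l d P = {y : Fin 2 → ℂ | (∀ i, y i ∈ ValuesM l d) ∧
        MvPolynomial.aeval y P = 0 ∧ ∃ i, Transcendental ℚ (y i)} := by
      ext y
      simp only [Solutions, Set.mem_ofPred_eq, mem_ValuesM]
    rw [h6, hsol]
    congr 1
    ext y
    rw [Set.mem_iUnion₂]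
    constructor
    · rintro ⟨p, hp, s, hs, h⟩
      exact ⟨p, hp, s, hs, h⟩
    · rintro ⟨p, hp, s, hs, h⟩
      exact ⟨p, hp, s, hs, h⟩

end Pool.Agent.Results.MP_60829e_nt.SiegelForLogarithms
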